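import Mathlib

set_option autoImplicit false

namespace Pool.Agent.Sowing

/-- The two players of a partizan game. -/
inductive Player where
  | left : Player
  | right : Player

/-- The opponent. -/
def Player.other : Player → Player
  | .left => .right
  | .right => .left

/-- A partizan game in Conway's sense: for each player `p` a type `ι p` indexing the options of
that player, and the options themselves. -/
inductive Game : Type 1
  | mk (ι : Player → Type) (opt : (p : Player) → ι p → Game) : Game

namespace Game

/-- `G.wins p`: player `p`, moving first in `G` under normal play (a player without a move loses),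
has a winning strategy. -/
def wins : Game → Player → Prop
  | .mk ι opt, p => ∃ i : ι p, ¬ (opt p i).wins p.other

/-- The negative of a game: exchange the two players everywhere. -/
def neg : Game → Game
  | .mk ι opt => .mk (fun p => ι p.other) (fun p i => (opt p.other i).neg)

/-- Auxiliary recursion for `add`: `H ↦ G + H`, where the functions `K ↦ G' + K` are already known
for all options `G'` of `G`. -/
def addAux (ι₁ : Player → Type) (o₁ : (p : Player) → ι₁ p → Game → Game) : Game → Game
  | .mk ι₂ o₂ => .mk (fun p => ι₁ p ⊕ ι₂ p) (fun p i =>
      match i with
      | .inl a => o₁ p a (.mk ι₂ o₂)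
      | .inr b => addAux ι₁ o₁ (o₂ p b))

/-- The disjunctive sum of two games: a move is a move in exactly one of the components. -/
def add : Game → Game → Game
  | .mk ι₁ o₁ => addAux ι₁ (fun p a => (o₁ p a).add)

/-- Equality of game values: `G = H` if the player moving second wins `G + (-H)`, whoever starts. -/
def Equal (G H : Game) : Prop := ∀ p, ¬ (G.add H.neg).wins p

/-- The zero game `{ | }`. -/
def zero : Game := .mk (fun _ => Empty) (fun _ i => i.elim)

/-- The game `{l | r}` with exactly one Left option `l` and exactly one Right option `r`. -/
def cut (l r : Game) : Game :=
  .mk (fun _ => Unit) (fun p _ => match p with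
    | .left => l
    | .right => r)

/-- The integer `n = {n - 1 | }`, for `n : ℕ`. -/
def nat : ℕ → Game
  | 0 => zero
  | n + 1 => .mk (fun p => match p with
      | .left => Unit
      | .right => Empty)
      (fun p i => match p, i with
      | .left, _ => nat n
      | .right, i => i.elim)

/-- The nimber `*n`, whose options for both players are `*0, ..., *(n-1)`. -/
def nimber (n : ℕ) : Game := .mk (fun _ => Fin n) (fun _ i => nimber i.1)
termination_by n
decreasing_by exact i.2

/-- `↑ = {0 | *}`. -/
def up : Game := cut zero (nimber 1)

/-- `n·↑`, the sum of `n` copies of `↑`. -/
def nUp : ℕ → Game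
  | 0 => zero
  | n + 1 => (nUp n).add up

/-- Tiny-`n`, that is `+ₙ = {0 || 0 | -n}`. -/
def tiny (n : ℕ) : Game := cut zero (cut zero (nat n).neg)

end Game

end Pool.Agent.Sowing
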