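import Mathlib
import Pool.Agent.Sowing.Game

set_option autoImplicit false

namespace Pool.Agent.Sowing

/-- A Sowing position: a row of pots indexed by the integers, each holding a nonnegative number of
seeds, with only finitely many pots nonempty. -/
abbrev Pos : Type := ℤ →₀ ℕ

/-- The direction in which a player sows: Left sows to the right, Right sows to the left. -/
def Player.dir : Player → ℤ
  | .left => 1
  | .right => -1

/-- The result of player `p` sowing pot `i`: remove all `f i` seeds of pot `i` and put one seed into
each of the next `f i` pots in the direction of `p`. -/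
noncomputable def sow (p : Player) (f : Pos) (i : ℤ) : Pos :=
  f.erase i + ∑ j ∈ Finset.Icc 1 (f i), Finsupp.single (i + p.dir * (j : ℤ)) 1

/-- The legal moves of player `p`: sow a nonempty pot `i`, provided the pot where the last seed
lands was nonempty before the move. -/
def Move (p : Player) (f g : Pos) : Prop :=
  ∃ i : ℤ, 0 < f i ∧ 0 < f (i + p.dir * (f i : ℤ)) ∧ g = sow p f i

theorem Player.dir_sq (p : Player) : p.dir * p.dir = 1 := by
  cases p <;> simp [Player.dir]

theorem Player.dir_ne (p : Player) : p.dir ≠ 0 := by
  cases p <;> simp [Player.dir]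

theorem sow_apply (p : Player) (f : Pos) (i z : ℤ) :
    sow p f i z = if z = i then 0 else
      f z + (if 1 ≤ p.dir * (z - i) ∧ p.dir * (z - i) ≤ (f i : ℤ) then 1 else 0) := by
  classical
  unfold sow
  rw [Finsupp.add_apply, Finsupp.finsetSum_apply]
  have hsum : ∑ j ∈ Finset.Icc 1 (f i), (Finsupp.single (i + p.dir * (j : ℤ)) (1 : ℕ)) z
      = if 1 ≤ p.dir * (z - i) ∧ p.dir * (z - i) ≤ (f i : ℤ) then 1 else 0 := by
    have hd := p.dir_sq
    split_ifs with h
    · have hj : ((p.dir * (z - i)).toNat : ℤ) = p.dir * (z - i) := Int.toNat_of_nonneg (by omega)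
      rw [Finset.sum_eq_single (p.dir * (z - i)).toNat]
      · rw [hj]
        have : i + p.dir * (p.dir * (z - i)) = z := by
          rw [← mul_assoc, hd]; ring
        rw [this]; simp
      · intro b _ hb
        rw [Finsupp.single_apply, if_neg]
        intro hz
        apply hb
        have : p.dir * (z - i) = b := by
          rw [← hz]
          have : p.dir * (i + p.dir * (b : ℤ) - i) = (p.dir * p.dir) * b := by ring
          rw [this, hd, one_mul]
        rw [this]; simp
      · intro hn
        exfalso; apply hn
        rw [Finset.mem_Icc]; constructor <;> omega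
    · apply Finset.sum_eq_zero
      intro b hb
      rw [Finset.mem_Icc] at hb
      rw [Finsupp.single_apply, if_neg]
      intro hz
      apply h
      have : p.dir * (z - i) = b := by
        rw [← hz]
        have : p.dir * (i + p.dir * (b : ℤ) - i) = (p.dir * p.dir) * b := by ring
        rw [this, hd, one_mul]
      rw [this]; constructor <;> exact_mod_cast (by omega)
  rw [hsum]
  by_cases h1 : z = i
  · subst h1; simp
  · rw [Finsupp.erase_ne h1, if_neg h1]

/-! ### Termination -/

/-- the potential of a single pot -/
def psi (S x : ℕ) : ℕ := if x = 0 then 0 else S + 1 - x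

/-- the total number of seeds -/
noncomputable def total (f : Pos) : ℕ := f.sum (fun _ x => x)

theorem total_sow (p : Player) (f : Pos) (i : ℤ) : total (sow p f i) = total f := by
  classical
  unfold total sow
  rw [Finsupp.sum_add_index' (by simp) (by intros; rfl)]
  have h1 : (∑ j ∈ Finset.Icc 1 (f i), Finsupp.single (i + p.dir * (j : ℤ)) (1 : ℕ)).sum
      (fun _ x => x) = f i := by
    rw [← Finsupp.sum_finsetSum_index (by simp) (by intros; rfl)]
    simp
  rw [h1]
  have h2 := Finsupp.single_add_erase i f
  conv_rhs => rw [← h2]
  rw [Finsupp.sum_add_index' (by simp) (by intros; rfl)]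
  simp [add_comm]

theorem le_total (f : Pos) (i : ℤ) : f i ≤ total f := by
  classical
  unfold total Finsupp.sum
  by_cases h : i ∈ f.support
  · exact Finset.single_le_sum (f := fun a => f a) (fun _ _ => Nat.zero_le _) h
  · rw [Finsupp.notMem_support_iff] at h
    rw [h]; exact Nat.zero_le _

/-- the measure that decreases along each move, for positions inside `[a, a+n)`. -/
def mu (S : ℕ) (f : ℤ → ℕ) (a : ℤ) : ℕ → ℕ
  | 0 => 0
  | n + 1 => psi S (f a) * (S + 2) ^ n + mu S f (a + 1) n

theorem mu_lt (S : ℕ) (f : ℤ → ℕ) (n : ℕ) : ∀ a, mu S f a n < (S + 2) ^ n := by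
  induction n with
  | zero => intro a; simp [mu]
  | succ n ih =>
    intro a
    have h := ih (a + 1)
    have h2 : psi S (f a) ≤ S + 1 := by unfold psi; split_ifs <;> omega
    simp only [mu, pow_succ]
    have : psi S (f a) * (S + 2) ^ n ≤ (S + 1) * (S + 2) ^ n := Nat.mul_le_mul_right _ h2
    nlinarith

theorem mu_congr (S : ℕ) (f g : ℤ → ℕ) (n : ℕ) : ∀ a, (∀ z, a ≤ z → f z = g z) →
    mu S f a n = mu S g a n := by
  induction n with
  | zero => intro a _; simp [mu]
  | succ n ih =>
    intro a h
    simp only [mu]
    rw [h a le_rfl, ih (a + 1) (fun z hz => h z (by omega))]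

theorem mu_lt_of_first (S : ℕ) (f g : ℤ → ℕ) (n : ℕ) : ∀ a c : ℤ, a ≤ c → c < a + n →
    (∀ z, z < c → f z = g z) → psi S (g c) < psi S (f c) → mu S g a n < mu S f a n := by
  induction n with
  | zero => intro a c h1 h2; omega
  | succ n ih =>
    intro a c h1 h2 h3 h4
    simp only [mu]
    rcases eq_or_lt_of_le h1 with h | h
    · subst h
      have h5 := mu_lt S g n (a + 1)
      have h6 : (psi S (g a) + 1) * (S + 2) ^ n ≤ psi S (f a) * (S + 2) ^ n :=
        Nat.mul_le_mul_right _ h4
      nlinarith
    · rw [h3 a h]
      have := ih (a + 1) c (by omega) (by push_cast at h2; omega) h3 h4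
      omega

theorem move_zero_outside {p : Player} {f g : Pos} (h : Move p f g) {a b : ℤ}
    (hf : ∀ z, z < a ∨ b < z → f z = 0) : ∀ z, z < a ∨ b < z → g z = 0 := by
  obtain ⟨i, hi, hl, rfl⟩ := h
  intro z hz
  have hia : a ≤ i ∧ i ≤ b := by
    by_contra hc
    have := hf i (by omega)
    omega
  have hla : a ≤ i + p.dir * (f i : ℤ) ∧ i + p.dir * (f i : ℤ) ≤ b := by
    by_contra hc
    have := hf (i + p.dir * (f i : ℤ)) (by omega)
    omega
  rw [sow_apply]
  have hfz := hf z hz
  rw [if_neg (by omega), hfz, if_neg]
  rintro ⟨h1, h2⟩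
  cases p <;> simp only [Player.dir] at * <;> omega

theorem total_move {p : Player} {f g : Pos} (h : Move p f g) : total g = total f := by
  obtain ⟨i, hi, hl, rfl⟩ := h
  exact total_sow p f i

theorem mu_move {p : Player} {f g : Pos} (h : Move p f g) {a : ℤ} {n : ℕ}
    (hf : ∀ z, z < a ∨ a + n - 1 < z → f z = 0) :
    mu (total f) g a n < mu (total f) f a n := by
  have hm := h
  obtain ⟨i, hi, hl, rfl⟩ := h
  have hia : a ≤ i ∧ i ≤ a + n - 1 := by
    by_contra hc
    have := hf i (by omega)
    omega
  have hla : a ≤ i + p.dir * (f i : ℤ) ∧ i + p.dir * (f i : ℤ) ≤ a + n - 1 := by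
    by_contra hc
    have := hf (i + p.dir * (f i : ℤ)) (by omega)
    omega
  have htot := total_sow p f i
  cases p with
  | left =>
    apply mu_lt_of_first _ _ _ n a i (by omega) (by omega)
    · intro z hz
      rw [sow_apply, if_neg (by omega), if_neg]
      · simp
      · simp only [Player.dir]; omega
    · rw [sow_apply, if_pos rfl]
      have := le_total f i
      simp only [psi, if_pos]
      rw [if_neg (by omega)]
      omega
  | right =>
    have hki : (0 : ℤ) < f i := by exact_mod_cast hi
    apply mu_lt_of_first _ _ _ n a (i + Player.right.dir * (f i : ℤ)) (by omega) (by omega)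
    · intro z hz
      simp only [Player.dir] at hz
      rw [sow_apply, if_neg (by omega), if_neg]
      · simp
      · simp only [Player.dir]; omega
    · have h1 := le_total (sow Player.right f i) (i + Player.right.dir * (f i : ℤ))
      rw [htot] at h1
      have h2 : (sow Player.right f i) (i + Player.right.dir * (f i : ℤ))
          = f (i + Player.right.dir * (f i : ℤ)) + 1 := by
        rw [sow_apply, if_neg, if_pos]
        · simp only [Player.dir]; omega
        · simp only [Player.dir]; omega
      rw [h2] at h1 ⊢
      unfold psi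
      rw [if_neg (by omega), if_neg (by omega)]
      omega

/-- Play always ends. -/
theorem move_wf : WellFounded (fun g f : Pos => ∃ p, Move p f g) := by
  constructor
  intro f0
  obtain ⟨a, n, hf0⟩ : ∃ (a : ℤ) (n : ℕ), ∀ z, z < a ∨ a + n - 1 < z → f0 z = 0 := by
    classical
    obtain ⟨b, hb⟩ := f0.support.bddBelow
    obtain ⟨c, hc⟩ := f0.support.bddAbove
    refine ⟨b, (c - b + 1).toNat, ?_⟩
    intro z hz
    by_contra hne
    have hzs : z ∈ f0.support := Finsupp.mem_support_iff.mpr hne
    have h1 := hb hzs
    have h2 := hc hzs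
    have : ((c - b + 1).toNat : ℤ) = c - b + 1 := Int.toNat_of_nonneg (by omega)
    omega
  have key : ∀ (m : ℕ) (f : Pos), total f = total f0 →
      (∀ z, z < a ∨ a + n - 1 < z → f z = 0) → mu (total f0) f a n < m →
      Acc (fun g f : Pos => ∃ p, Move p f g) f := by
    intro m
    induction m with
    | zero => intro f _ _ h; omega
    | succ m ih =>
      intro f ht hf hm
      constructor
      rintro g ⟨p, hg⟩
      apply ih g
      · rw [total_move hg, ht]
      · exact move_zero_outside hg hf
      · have := mu_move hg hf
        rw [ht] at this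
        omega
  exact key _ f0 rfl hf0 (Nat.lt_succ_self _)

instance : WellFoundedRelation Pos := ⟨fun g f => ∃ p, Move p f g, move_wf⟩

/-- The game defined by a Sowing position. -/
noncomputable def toGame (f : Pos) : Game :=
  .mk (fun p => {g : Pos // Move p f g}) (fun _ g => toGame g.1)
termination_by f
decreasing_by exact ⟨_, g.2⟩

/-- The Sowing position `f` has the value of the game `G`. -/
def HasValue (f : Pos) (G : Game) : Prop := (toGame f).Equal G

end Pool.Agent.Sowing
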