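import Mathlib
import Pool.Agent.Sowing.Defs

set_option autoImplicit false

namespace Pool.Agent.Sowing

/-! ### The explicit positions -/

/-- The row `1303` with its leftmost pot at `c`; its value is `↑`. -/
noncomputable def upBlock (c : ℤ) : Pos :=
  Finsupp.single c 1 + Finsupp.single (c + 1) 3 + Finsupp.single (c + 3) 3

/-- `n` far apart copies of the row `1303`; its value is `n·↑`. -/
noncomputable def upPos : ℕ → Pos
  | 0 => 0
  | n + 1 => upPos n + upBlock (12 * ((n : ℤ) + 1) ^ 2)

/-- The contents of the row `● 0 1 0 1 ⋯ 0 1 ● ● 3` (with `n` copies of `01`, leftmost pot at `0`,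
and `●` a pot with `3n + 10` seeds, which can never be sown). -/
def tinyFun (n : ℕ) (z : ℤ) : ℕ :=
  if z = 0 ∨ z = 2 * n + 1 ∨ z = 2 * n + 2 then 3 * n + 10
  else if z = 2 * n + 3 then 3
  else if 1 ≤ z ∧ z ≤ 2 * n ∧ 2 ∣ z then 1
  else 0

/-- The row `● (01)ⁿ ● ● 3`; its value is tiny-`n`. -/
noncomputable def tinyPos (n : ℕ) : Pos :=
  Finsupp.onFinset (Finset.Icc 0 (2 * (n : ℤ) + 3)) (tinyFun n) (by
    intro z hz
    rw [Finset.mem_Icc]
    by_contra hcon
    apply hz
    unfold tinyFun
    rw [if_neg (by omega), if_neg (by omega), if_neg (by omega)])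

/-- the number of seeds in a heavy pot of `nimPos n` -/
def nimK (n : ℕ) : ℕ := 2 * n * (4 * n - 3)

/-- the place of the last heavy pot of `nimPos n`; the first one is at `0` -/
def nimW (n : ℕ) : ℕ := 8 * n * (n - 1)

/-- the number of full pots on either side of the heavy pots of `nimPos n` -/
def nimR (n : ℕ) : ℕ := nimK n + 2 * n

/-- The contents of the pots of `nimPos n`: there are `2n - 1` heavy pots with `nimK n` seeds at
the places `0, 4n, 8n, …, nimW n`, there are empty pots half way between them at the places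
`2n, 6n, 10n, …`, and all other pots from `-nimR n` to `nimW n + nimR n` are full. -/
def nimFun (n : ℕ) (z : ℤ) : ℕ :=
  if z < -(nimR n : ℤ) ∨ (nimW n : ℤ) + nimR n < z then 0
  else if 0 ≤ z ∧ z ≤ nimW n ∧ (2 * n : ℤ) ∣ z then (if (4 * n : ℤ) ∣ z then nimK n else 0)
  else nimW n + 2 * nimR n + 1

/-- The position with value `*n`, for `n ≥ 1`. -/
noncomputable def nimPos (n : ℕ) : Pos :=
  Finsupp.onFinset (Finset.Icc (-(nimR n : ℤ)) ((nimW n : ℤ) + nimR n)) (nimFun n) (by
    intro z hz
    rw [Finset.mem_Icc]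
    by_contra hcon
    apply hz
    unfold nimFun
    rw [if_pos (by omega)])

end Pool.Agent.Sowing
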