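import Mathlib

set_option autoImplicit false

namespace Pool.Agent.Sowing

/-- The three states of a cell: empty, holding few seeds, holding many seeds. -/
inductive Cell where
  | hole : Cell
  | small : Cell
  | heavy : Cell

namespace Cell

/-- the effect on a cell of one additional seed -/
def act : Cell → Cell
  | hole => small
  | small => small
  | heavy => heavy

end Cell

open Cell

/-- The parity bit after reading a word: it is flipped by each nonempty cell. -/
def par : Bool → List Cell → Bool
  | b, [] => b
  | b, hole :: w => par b w
  | b, small :: w => par (!b) w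
  | b, heavy :: w => par (!b) w

/-- The number of heavy cells read while the parity bit is `true`. -/
def ev : Bool → List Cell → ℕ
  | _, [] => 0
  | b, hole :: w => ev b w
  | b, small :: w => ev (!b) w
  | true, heavy :: w => ev false w + 1
  | false, heavy :: w => ev true w

/-- The number of heavy cells. -/
def hv : List Cell → ℕ
  | [] => 0
  | hole :: w => hv w
  | small :: w => hv w
  | heavy :: w => hv w + 1

/-- heavy cells occur only at places whose flag is `true`, the flag alternating. -/
def wf : Bool → List Cell → Prop
  | _, [] => True
  | e, hole :: w => wf (!e) w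
  | e, small :: w => wf (!e) w
  | e, heavy :: w => e = true ∧ wf (!e) w

theorem par_append (a b : List Cell) : ∀ x, par x (a ++ b) = par (par x a) b := by
  induction a with
  | nil => intro x; rfl
  | cons c a ih => intro x; cases c <;> simp [par, ih]

theorem ev_append (a b : List Cell) : ∀ x, ev x (a ++ b) = ev x a + ev (par x a) b := by
  induction a with
  | nil => intro x; simp [par, ev]
  | cons c a ih =>
    intro x
    cases c <;> cases x <;> simp [par, ev, ih] <;> omega

theorem hv_append (a b : List Cell) : hv (a ++ b) = hv a + hv b := by
  induction a with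
  | nil => simp [hv]
  | cons c a ih => cases c <;> simp [hv, ih] <;> omega

theorem par_not (w : List Cell) : ∀ x, par (!x) w = !(par x w) := by
  induction w with
  | nil => intro x; rfl
  | cons c w ih => intro x; cases c <;> simp [par, ih]

theorem par_false (w : List Cell) : par false w = !(par true w) := by
  have := par_not w true; simpa using this

theorem hv_eq (w : List Cell) : hv w = ev true w + ev false w := by
  induction w with
  | nil => rfl
  | cons c w ih => cases c <;> simp [hv, ev, ih] <;> omega

theorem wf_append (a b : List Cell) : ∀ e, wf e (a ++ b) ↔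
    wf e a ∧ wf (if Even a.length then e else !e) b := by
  induction a with
  | nil => intro e; simp [wf]
  | cons c a ih =>
    intro e
    have h : Even (a.length + 1) ↔ ¬ Even a.length := Nat.even_add_one
    by_cases h1 : Even a.length
    · cases c <;> simp [wf, ih, h, h1, and_assoc]
    · cases c <;> simp [wf, ih, h, h1, and_assoc]

theorem hv_map_act (w : List Cell) : hv (w.map act) = hv w := by
  induction w with
  | nil => rfl
  | cons c w ih => cases c <;> simp [hv, act, ih]

theorem wf_map_act (w : List Cell) : ∀ e, wf e (w.map act) ↔ wf e w := by
  induction w with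
  | nil => intro e; rfl
  | cons c w ih => intro e; cases c <;> simp [wf, act, ih]

/-- After activation all cells are nonempty, so the bit alternates. -/
theorem par_map_act (w : List Cell) : ∀ x, par x (w.map act) = if Even w.length then x else !x := by
  induction w with
  | nil => intro x; simp [par]
  | cons c w ih =>
    intro x
    have h : Even (w.length + 1) ↔ ¬ Even w.length := Nat.even_add_one
    by_cases h1 : Even w.length
    · cases c <;> simp [par, act, ih, h, h1]
    · cases c <;> simp [par, act, ih, h, h1]

/-- The heavy cells of an activated word are read with a constant bit. -/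
theorem ev_map_act (w : List Cell) : ∀ x e, wf e w →
    ev x (w.map act) = if x = e then hv w else 0 := by
  induction w with
  | nil => intro x e _; simp [ev, hv]
  | cons c w ih =>
    intro x e h
    cases c with
    | hole =>
      simp only [wf] at h
      simp only [List.map_cons, act, ev, hv]
      rw [ih _ _ h]; cases x <;> cases e <;> simp
    | small =>
      simp only [wf] at h
      simp only [List.map_cons, act, ev, hv]
      rw [ih _ _ h]; cases x <;> cases e <;> simp
    | heavy =>
      simp only [wf] at h
      obtain ⟨rfl, h⟩ := h
      cases x with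
      | false =>
        simp only [List.map_cons, act, ev]
        rw [ih _ _ h]; simp
      | true =>
        simp only [List.map_cons, act, ev, hv]
        rw [ih _ _ h]; simp

/-- Playing a small cell. -/
def SmallMove (w w' : List Cell) : Prop :=
  ∃ a b, w = a ++ small :: b ∧ w' = a ++ hole :: b

/-- Playing a heavy cell forwards: all later cells receive a seed. -/
def Fwd (w w' : List Cell) : Prop :=
  ∃ a b, w = a ++ heavy :: b ∧ w' = a ++ hole :: b.map act

/-- Playing a heavy cell backwards: all earlier cells receive a seed. -/
def Bwd (w w' : List Cell) : Prop :=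
  ∃ a b, w = a ++ heavy :: b ∧ w' = a.map act ++ hole :: b

/-- The words we consider: odd length, heavy cells only in even places. -/
def Good (w : List Cell) : Prop := Odd w.length ∧ wf true w

theorem Good.small {w w' : List Cell} (h : Good w) (hm : SmallMove w w') : Good w' := by
  obtain ⟨a, b, rfl, rfl⟩ := hm
  obtain ⟨h1, h2⟩ := h
  refine ⟨by simpa using h1, ?_⟩
  rw [wf_append] at h2 ⊢
  exact ⟨h2.1, by simpa [wf] using h2.2⟩

theorem Good.split {a b : List Cell} (h : Good (a ++ heavy :: b)) :
    Even a.length ∧ Even b.length ∧ wf true a ∧ wf false b := by
  obtain ⟨h1, h2⟩ := h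
  rw [wf_append] at h2
  obtain ⟨h2, h3⟩ := h2
  by_cases h4 : Even a.length
  · simp only [h4, if_true, wf] at h3
    simp only [List.length_append, List.length_cons] at h1
    have h5 : Even b.length := by
      rw [← add_assoc, Nat.odd_add_one, Nat.not_odd_iff_even, Nat.even_add] at h1
      exact h1.1 h4
    exact ⟨h4, h5, h2, by simpa using h3⟩
  · simp [h4, wf] at h3

theorem Good.fwd {w w' : List Cell} (h : Good w) (hm : Fwd w w') : Good w' := by
  obtain ⟨a, b, rfl, rfl⟩ := hm
  obtain ⟨h1, h2, h3, h4⟩ := h.split
  refine ⟨?_, ?_⟩
  · have := h.1
    simpa using this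
  · rw [wf_append]
    refine ⟨h3, ?_⟩
    simp only [h1, if_true, wf, wf_map_act]
    simpa using h4

theorem Good.bwd {w w' : List Cell} (h : Good w) (hm : Bwd w w') : Good w' := by
  obtain ⟨a, b, rfl, rfl⟩ := hm
  obtain ⟨h1, h2, h3, h4⟩ := h.split
  refine ⟨?_, ?_⟩
  · have := h.1
    simpa using this
  · rw [wf_append]
    refine ⟨(wf_map_act _ _).2 h3, ?_⟩
    simp only [List.length_map, h1, if_true, wf]
    simpa using h4

/-- Existence of a heavy cell of the first kind with prescribed number of later ones. -/
theorem pick (w : List Cell) : ∀ x k, k < ev x w →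
    ∃ a b, w = a ++ heavy :: b ∧ par x a = true ∧ ev false b = k := by
  induction w with
  | nil => intro x k h; simp [ev] at h
  | cons c w ih =>
    intro x k h
    cases c with
    | hole =>
      obtain ⟨a, b, rfl, h1, h2⟩ := ih x k (by simpa [ev] using h)
      exact ⟨hole :: a, b, rfl, h1, h2⟩
    | small =>
      obtain ⟨a, b, rfl, h1, h2⟩ := ih (!x) k (by simpa [ev] using h)
      exact ⟨small :: a, b, rfl, h1, h2⟩
    | heavy =>
      cases x with
      | false =>
        obtain ⟨a, b, rfl, h1, h2⟩ := ih true k (by simpa [ev] using h)
        exact ⟨heavy :: a, b, rfl, h1, h2⟩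
      | true =>
        by_cases hk : k < ev false w
        · obtain ⟨a, b, rfl, h1, h2⟩ := ih false k hk
          exact ⟨heavy :: a, b, rfl, h1, h2⟩
        · simp only [ev] at h
          exact ⟨[], w, rfl, rfl, by omega⟩

/-- no small cell -/
def NoSmall : List Cell → Prop
  | [] => True
  | hole :: w => NoSmall w
  | small :: _ => False
  | heavy :: w => NoSmall w

theorem noSmall_ev (w : List Cell) (h : NoSmall w) :
    ev true w = ev false w + (if par true w = false then 1 else 0) := by
  induction w with
  | nil => simp [ev, par]
  | cons c w ih =>
    cases c with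
    | hole => exact ih h
    | small => exact absurd h (by simp [NoSmall])
    | heavy =>
      have ih' := ih h
      simp only [ev, par, Bool.not_true]
      rw [par_false]
      rcases hb : par true w with _ | _
      · rw [hb] at ih'; simp at ih' ⊢; omega
      · rw [hb] at ih'; simp at ih' ⊢; omega

theorem exists_last_small (w : List Cell) : NoSmall w ∨
    ∃ a b, w = a ++ small :: b ∧ NoSmall b := by
  induction w with
  | nil => left; trivial
  | cons c w ih =>
    rcases ih with h | ⟨a, b, rfl, hb⟩
    · cases c with
      | hole => left; exact h
      | small => right; exact ⟨[], w, rfl, h⟩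
      | heavy => left; exact h
    · right; exact ⟨c :: a, b, rfl, hb⟩

/-- The positions (word, Nim heap) lost for the player moving first, when the first player plays
heavy cells forwards and the second player plays them backwards. -/
def Lose (w : List Cell) (N : ℕ) : Prop :=
  (N = 0 ∧ par true w = true ∧ ev true w ≤ ev false w) ∨
  (ev false w + 1 = N ∧ par true w = false ∧ ev false w ≤ ev true w)

theorem ev_small (a b : List Cell) (x : Bool) :
    ev x (a ++ small :: b) = ev x a + ev (!(par x a)) b := by
  rw [ev_append]; rfl

theorem ev_hole (a b : List Cell) (x : Bool) :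
    ev x (a ++ hole :: b) = ev x a + ev (par x a) b := by
  rw [ev_append]; rfl

theorem par_small (a b : List Cell) (x : Bool) :
    par x (a ++ small :: b) = par (!(par x a)) b := by
  rw [par_append]; rfl

theorem par_heavy (a b : List Cell) (x : Bool) :
    par x (a ++ heavy :: b) = par (!(par x a)) b := by
  rw [par_append]; rfl

theorem par_hole (a b : List Cell) (x : Bool) :
    par x (a ++ hole :: b) = par (par x a) b := by
  rw [par_append]; rfl

theorem ev_heavy_true (a b : List Cell) (x : Bool) (h : par x a = true) :
    ev x (a ++ heavy :: b) = ev x a + 1 + ev false b := by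
  rw [ev_append, h]; simp [ev]; omega

theorem ev_heavy_false (a b : List Cell) (x : Bool) (h : par x a = false) :
    ev x (a ++ heavy :: b) = ev x a + ev true b := by
  rw [ev_append, h]; simp [ev]

theorem ev_fwd {a b : List Cell} (h : Good (a ++ heavy :: b)) (x : Bool) :
    ev x (a ++ hole :: b.map act) = ev x a + (if par x a = false then hv b else 0) := by
  obtain ⟨h1, h2, h3, h4⟩ := h.split
  rw [ev_hole, ev_map_act b (par x a) false h4]

theorem par_fwd {a b : List Cell} (h : Good (a ++ heavy :: b)) (x : Bool) :
    par x (a ++ hole :: b.map act) = par x a := by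
  obtain ⟨h1, h2, h3, h4⟩ := h.split
  rw [par_hole, par_map_act, if_pos h2]

theorem ev_bwd {a b : List Cell} (h : Good (a ++ heavy :: b)) (x : Bool) :
    ev x (a.map act ++ hole :: b) = (if x = true then hv a else 0) + ev x b := by
  obtain ⟨h1, h2, h3, h4⟩ := h.split
  rw [ev_hole, ev_map_act a x true h3, par_map_act, if_pos h1]

theorem par_bwd {a b : List Cell} (h : Good (a ++ heavy :: b)) (x : Bool) :
    par x (a.map act ++ hole :: b) = par x b := by
  obtain ⟨h1, h2, h3, h4⟩ := h.split
  rw [par_hole, par_map_act, if_pos h1]

/-- If the total parity is odd, the second player can move to a lost position without heap. -/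
theorem reply_zero {w : List Cell} (hw : Good w) (hp : par true w = false) :
    ∃ w', (SmallMove w w' ∨ Bwd w w') ∧ Lose w' 0 := by
  by_cases hE : ev false w < ev true w
  · obtain ⟨a, b, rfl, h1, h2⟩ := pick w true (ev true w - 1) (by omega)
    refine ⟨_, Or.inr ⟨a, b, rfl, rfl⟩, Or.inl ⟨rfl, ?_, ?_⟩⟩
    · rw [par_bwd hw]
      rw [par_heavy, h1] at hp
      have := par_false b
      simp only [Bool.not_true] at hp
      rw [hp] at this
      simpa using this.symm
    · rw [ev_bwd hw, ev_bwd hw]
      have e1 := ev_heavy_true a b true h1
      have h3 : par false a = false := by rw [par_false, h1]; rfl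
      have e2 := ev_heavy_false a b false h3
      have e3 := hv_eq a
      simp only [if_true]
      rw [if_neg (by simp)]
      omega
  · rcases exists_last_small w with h | ⟨a, b, rfl, hb⟩
    · have := noSmall_ev w h
      rw [hp] at this
      simp at this
      omega
    · refine ⟨_, Or.inl ⟨a, b, rfl, rfl⟩, Or.inl ⟨rfl, ?_, ?_⟩⟩
      · rw [par_hole]
        rw [par_small, par_not] at hp
        simpa using hp
      · rw [ev_small, ev_small] at hE
        rw [ev_hole, ev_hole]
        rw [par_small, par_not] at hp
        have h1 := noSmall_ev b hb
        have h2 := par_false b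
        have h3 := par_false a
        rcases ha : par true a with _ | _
        · rw [ha] at hp h3
          simp only [ha, h3, Bool.not_false, Bool.not_true] at *
          have : par true b = false := by
            rw [h2] at hp; simpa using hp
          rw [this] at h1
          simp at h1
          omega
        · rw [ha] at hp h3
          simp only [ha, h3, Bool.not_false, Bool.not_true] at *
          have : par true b = true := by simpa using hp
          rw [this] at h1
          simp at h1
          omega

/-- Searching forwards for a return to the same level. -/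
theorem cross_fwd (b : List Cell) : ∀ (x : Bool) (D : ℤ), (if x = true then 0 ≤ D else 1 ≤ D) →
    D + ev x b - ev (!x) b < 0 →
    ∃ c d, b = c ++ small :: d ∧ par x c = true ∧ D + ev x c - ev (!x) c = 0 := by
  induction b with
  | nil => intro x D h1 h2; cases x <;> simp [ev] at h1 h2 <;> omega
  | cons c b ih =>
    intro x D h1 h2
    cases c with
    | hole =>
      obtain ⟨c, d, rfl, h3, h4⟩ := ih x D h1 (by simpa [ev] using h2)
      exact ⟨hole :: c, d, rfl, h3, by simpa [ev] using h4⟩
    | heavy =>
      cases x with
      | true =>
        obtain ⟨c, d, rfl, h3, h4⟩ := ih false (D + 1) (by simp at h1 ⊢; omega)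
          (by simp [ev] at h2 ⊢; omega)
        exact ⟨heavy :: c, d, rfl, h3, by simp [ev] at h4 ⊢; omega⟩
      | false =>
        obtain ⟨c, d, rfl, h3, h4⟩ := ih true (D - 1) (by simp at h1 ⊢; omega)
          (by simp [ev] at h2 ⊢; omega)
        exact ⟨heavy :: c, d, rfl, h3, by simp [ev] at h4 ⊢; omega⟩
    | small =>
      cases x with
      | true =>
        by_cases hD : D = 0
        · exact ⟨[], b, rfl, rfl, by simp [ev, hD]⟩
        · obtain ⟨c, d, rfl, h3, h4⟩ := ih false D (by simp at h1 ⊢; omega)
            (by simp [ev] at h2 ⊢; omega)
          exact ⟨small :: c, d, rfl, h3, by simp [ev] at h4 ⊢; omega⟩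
      | false =>
        obtain ⟨c, d, rfl, h3, h4⟩ := ih true D (by simp at h1 ⊢; omega)
            (by simp [ev] at h2 ⊢; omega)
        exact ⟨small :: c, d, rfl, h3, by simp [ev] at h4 ⊢; omega⟩

/-- Searching from the start for an upward crossing of the level. -/
theorem cross_bwd (a : List Cell) (L : ℤ) : ∀ (x : Bool) (D : ℤ),
    (if x = true then D ≤ L - 1 else D ≤ L) →
    par x a = true → D + ev x a - ev (!x) a = L →
    ∃ d c, a = d ++ small :: c ∧ par x d = false ∧ D + ev x d - ev (!x) d = L := by
  induction a with
  | nil => intro x D h1 h2 h3; cases x <;> simp [ev, par] at h1 h2 h3 <;> omega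
  | cons c a ih =>
    intro x D h1 h2 h3
    cases c with
    | hole =>
      obtain ⟨c, d, rfl, h4, h5⟩ := ih x D h1 (by simpa [par] using h2) (by simpa [ev] using h3)
      exact ⟨hole :: c, d, rfl, h4, by simpa [ev] using h5⟩
    | heavy =>
      cases x with
      | true =>
        obtain ⟨c, d, rfl, h4, h5⟩ := ih false (D + 1) (by simp at h1 ⊢; omega)
          (by simpa [par] using h2) (by simp [ev] at h3 ⊢; omega)
        exact ⟨heavy :: c, d, rfl, h4, by simp [ev] at h5 ⊢; omega⟩
      | false =>
        obtain ⟨c, d, rfl, h4, h5⟩ := ih true (D - 1) (by simp at h1 ⊢; omega)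
          (by simpa [par] using h2) (by simp [ev] at h3 ⊢; omega)
        exact ⟨heavy :: c, d, rfl, h4, by simp [ev] at h5 ⊢; omega⟩
    | small =>
      cases x with
      | true =>
        obtain ⟨c, d, rfl, h4, h5⟩ := ih false D (by simp at h1 ⊢; omega)
            (by simpa [par] using h2) (by simp [ev] at h3 ⊢; omega)
        exact ⟨small :: c, d, rfl, h4, by simp [ev] at h5 ⊢; omega⟩
      | false =>
        by_cases hD : D = L
        · exact ⟨[], a, rfl, rfl, by simp [ev, hD]⟩
        · obtain ⟨c, d, rfl, h4, h5⟩ := ih true D (by simp at h1 ⊢; omega)
            (by simpa [par] using h2) (by simp [ev] at h3 ⊢; omega)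
          exact ⟨small :: c, d, rfl, h4, by simp [ev] at h5 ⊢; omega⟩

/-- If there are equally many heavy cells of both kinds and a small cell is played at positive
level, there is another small cell whose play restores the balance. -/
theorem reply_balanced {a b : List Cell} (hp : par true (a ++ small :: b) = false)
    (hE : ev true (a ++ small :: b) = ev false (a ++ small :: b))
    (hD : ev false a < ev true a) :
    ∃ w'', SmallMove (a ++ hole :: b) w'' ∧ par true w'' = false ∧
      ev true w'' = ev true (a ++ small :: b) ∧ ev false w'' = ev false (a ++ small :: b) := by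
  have hp' := hp
  have hE' := hE
  rw [par_small] at hp
  rw [ev_small, ev_small] at hE
  have h3 := par_false a
  rcases ha : par true a with _ | _
  · -- search forwards
    rw [ha] at hp h3 hE
    simp only [Bool.not_false] at hp h3 hE
    rw [h3] at hE
    simp only [Bool.not_true] at hE
    obtain ⟨c, d, rfl, h4, h5⟩ := cross_fwd b true 0 (by simp) (by simp; omega)
    have h7 : par false c = false := by rw [par_false, h4]; rfl
    have e1 : ev true (a ++ hole :: (c ++ hole :: d)) = ev true a + (ev false c + ev false d) := by
      rw [ev_hole, ha, ev_hole, h7]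
    have e2 : ev true (a ++ small :: (c ++ small :: d)) = ev true a + (ev true c + ev false d) := by
      rw [ev_small, ha, Bool.not_false, ev_small, h4]; rfl
    have e3 : ev false (a ++ hole :: (c ++ hole :: d)) = ev false a + (ev true c + ev true d) := by
      rw [ev_hole, h3, ev_hole, h4]
    have e4 : ev false (a ++ small :: (c ++ small :: d)) = ev false a + (ev false c + ev true d) := by
      rw [ev_small, h3, Bool.not_true, ev_small, h7]; rfl
    simp only [Bool.not_true] at h5
    refine ⟨a ++ hole :: (c ++ hole :: d), ⟨a ++ hole :: c, d, by simp, by simp⟩, ?_, ?_, ?_⟩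
    · rw [par_small, h4] at hp
      rw [par_hole, par_hole, ha, h7]
      simpa using hp
    · omega
    · omega
  · -- search backwards
    rw [ha] at hp
    simp only [Bool.not_true] at hp
    obtain ⟨d, c, rfl, h4, h5⟩ := cross_bwd a ((ev true a : ℤ) - ev false a) true 0
      (by simp; omega) ha (by simp)
    have h6 : par false d = true := by rw [par_false, h4]; rfl
    rw [par_small, h4, Bool.not_false] at ha
    have h7 : par false c = false := by rw [par_false, ha]; rfl
    have e1 : ev true (d ++ hole :: (c ++ hole :: b)) = ev true d + (ev false c + ev false b) := by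
      rw [ev_hole, h4, ev_hole, h7]
    have e2 : ev true ((d ++ small :: c) ++ small :: b) = ev true d + ev true c + ev false b := by
      rw [ev_small, par_small, h4, Bool.not_false, ha, ev_small, h4]; rfl
    have e3 : ev false (d ++ hole :: (c ++ hole :: b)) = ev false d + (ev true c + ev true b) := by
      rw [ev_hole, h6, ev_hole, ha]
    have e4 : ev false ((d ++ small :: c) ++ small :: b) = ev false d + ev false c + ev true b := by
      rw [ev_small, par_small, h6, Bool.not_true, h7, ev_small, h6]; rfl
    have e5 : ev true (d ++ small :: c) = ev true d + ev true c := by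
      rw [ev_small, h4]; rfl
    have e6 : ev false (d ++ small :: c) = ev false d + ev false c := by
      rw [ev_small, h6]; rfl
    simp only [Bool.not_true] at h5
    refine ⟨d ++ hole :: (c ++ hole :: b), ⟨d, c ++ hole :: b, by simp, rfl⟩, ?_, ?_, ?_⟩
    · rw [par_hole, par_hole, h4, h7]
      exact hp
    · omega
    · omega

/-- The reply of the second player to a move in the heap. -/
theorem reply_heap {w : List Cell} (hw : Good w) {N N' : ℕ} (h : Lose w N) (hN : N' < N) :
    ∃ w', (SmallMove w w' ∨ Bwd w w') ∧ Lose w' N' := by
  rcases h with ⟨rfl, _, _⟩ | ⟨h1, h2, h3⟩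
  · omega
  · rcases Nat.eq_zero_or_pos N' with rfl | hpos
    · exact reply_zero hw h2
    · obtain ⟨a, b, rfl, h4, h5⟩ := pick w false (N' - 1) (by omega)
      have h6 : par true a = false := by
        have := par_false a
        rw [h4] at this
        rcases hb : par true a with _ | _
        · rfl
        · rw [hb] at this; simp at this
      refine ⟨_, Or.inr ⟨a, b, rfl, rfl⟩, Or.inr ⟨?_, ?_, ?_⟩⟩
      · rw [ev_bwd hw, if_neg (by simp)]; omega
      · rw [par_bwd hw]
        rw [par_heavy, h6] at h2
        exact h2
      · rw [ev_bwd hw, ev_bwd hw, if_neg (by simp), if_pos rfl]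
        have e1 := ev_heavy_false a b true h6
        have e2 := ev_heavy_true a b false h4
        have e3 := hv_eq a
        omega

/-- The reply of the second player to a move in the word. -/
theorem reply_word {w w' : List Cell} (hw : Good w) {N : ℕ} (h : Lose w N)
    (hm : SmallMove w w' ∨ Fwd w w') :
    (∃ N', N' < N ∧ Lose w' N') ∨ (∃ w'', (SmallMove w' w'' ∨ Bwd w' w'') ∧ Lose w'' N) := by
  have hw' : Good w' := by
    rcases hm with hm | hm
    · exact hw.small hm
    · exact hw.fwd hm
  rcases h with ⟨rfl, h2, h3⟩ | ⟨h1, h2, h3⟩
  · -- no heap
    right
    rcases hm with ⟨a, b, rfl, rfl⟩ | ⟨a, b, rfl, rfl⟩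
    · apply reply_zero hw'
      rw [par_small, par_not] at h2
      rw [par_hole]
      simpa using h2
    · rcases ha : par true a with _ | _
      · apply reply_zero hw'
        rw [par_fwd hw, ha]
      · have h4 : par false a = false := by rw [par_false, ha]; rfl
        have e1 := ev_heavy_true a b true ha
        have e2 := ev_heavy_false a b false h4
        have e3 := ev_fwd hw true
        have e4 := ev_fwd hw false
        rw [if_neg (by rw [ha]; simp)] at e3
        rw [if_pos h4] at e4
        have e5 := hv_eq b
        obtain ⟨a', b', hab, h5, h6⟩ := pick (a ++ hole :: b.map act) false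
          (ev false (a ++ hole :: b.map act) - 1) (by omega)
        have h7 : par true (a ++ hole :: b.map act) = true := by rw [par_fwd hw, ha]
        rw [hab] at hw' h7 e3 e4 h6
        have h8 : par true a' = false := by
          have := par_false a'
          rw [h5] at this
          rcases hb : par true a' with _ | _
          · rfl
          · rw [hb] at this; simp at this
        rw [par_heavy, h8] at h7
        have e6 := ev_heavy_false a' b' true h8
        have e7 := ev_heavy_true a' b' false h5
        have e8 := hv_eq a'
        refine ⟨a'.map act ++ hole :: b', Or.inr ⟨a', b', hab, rfl⟩, Or.inl ⟨rfl, ?_, ?_⟩⟩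
        · rw [par_bwd hw']; exact h7
        · rw [ev_bwd hw', ev_bwd hw', if_pos rfl, if_neg (by simp)]
          omega
  · rcases hm with ⟨a, b, rfl, rfl⟩ | ⟨a, b, rfl, rfl⟩
    · -- small cell
      have hpar : par true (a ++ hole :: b) = true := by
        rw [par_small, par_not] at h2
        rw [par_hole]
        simpa using h2
      by_cases hE : ev true (a ++ hole :: b) ≤ ev false (a ++ hole :: b)
      · left
        exact ⟨0, by omega, Or.inl ⟨rfl, hpar, hE⟩⟩
      · right
        have e0 := ev_small a b true
        have e1 := ev_small a b false
        have e2 := ev_hole a b true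
        have e3 := ev_hole a b false
        have e4 := par_false a
        have e5 : ev (!(par true a)) b + ev (!(par false a)) b = ev (par true a) b + ev (par false a) b := by
          rw [e4]; rcases par true a with _ | _ <;> simp [add_comm]
        have e6 : ev (!(par true a)) b = ev (par false a) b := by rw [e4]
        have e7 : ev (!(par false a)) b = ev (par true a) b := by rw [e4]; simp
        rcases Nat.lt_or_ge (ev false (a ++ small :: b)) (ev true (a ++ small :: b)) with hlt | hge
        · obtain ⟨a', b', hab, h5, h6⟩ := pick (a ++ hole :: b) true (N - 1) (by omega)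
          have h8 : par false a' = false := by rw [par_false, h5]; rfl
          rw [hab] at hw' hpar e2 e3
          rw [par_heavy, h5] at hpar
          have h9 : par true b' = false := by
            simp only [Bool.not_true] at hpar
            rw [par_false] at hpar
            simpa using hpar
          have e8 := ev_heavy_true a' b' true h5
          have e9 := ev_heavy_false a' b' false h8
          have e10 := hv_eq a'
          refine ⟨a'.map act ++ hole :: b', Or.inr ⟨a', b', hab, rfl⟩, Or.inr ⟨?_, ?_, ?_⟩⟩
          · rw [ev_bwd hw', if_neg (by simp)]; omega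
          · rw [par_bwd hw']; exact h9
          · rw [ev_bwd hw', ev_bwd hw', if_neg (by simp), if_pos rfl]
            omega
        · obtain ⟨w'', hs, h5, h6, h7⟩ := reply_balanced (a := a) (b := b) h2 (by omega) (by omega)
          exact ⟨w'', Or.inl hs, Or.inr ⟨by omega, h5, by omega⟩⟩
    · -- heavy cell
      have e3 := ev_fwd hw true
      have e4 := ev_fwd hw false
      have e5 := hv_eq b
      have e10 := hv_eq a
      have h7 := par_fwd hw true
      rcases ha : par true a with _ | _
      · have h4 : par false a = true := by rw [par_false, ha]; rfl
        rw [if_pos ha] at e3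
        rw [if_neg (by rw [h4]; simp)] at e4
        have e1 := ev_heavy_false a b true ha
        have e2 := ev_heavy_true a b false h4
        left
        refine ⟨ev false (a ++ hole :: b.map act) + 1, by omega, Or.inr ⟨rfl, ?_, by omega⟩⟩
        rw [h7, ha]
      · have h4 : par false a = false := by rw [par_false, ha]; rfl
        rw [if_neg (by rw [ha]; simp)] at e3
        rw [if_pos h4] at e4
        have e1 := ev_heavy_true a b true ha
        have e2 := ev_heavy_false a b false h4
        by_cases hE : ev true (a ++ hole :: b.map act) ≤ ev false (a ++ hole :: b.map act)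
        · left
          exact ⟨0, by omega, Or.inl ⟨rfl, by rw [h7, ha], hE⟩⟩
        · right
          obtain ⟨a', b', hab, h5, h6⟩ := pick (a ++ hole :: b.map act) true (N - 1) (by omega)
          have h8 : par false a' = false := by rw [par_false, h5]; rfl
          rw [hab] at hw' h7 e3 e4 hE
          rw [par_heavy, h5, ha] at h7
          have h9 : par true b' = false := by
            simp only [Bool.not_true] at h7
            rw [par_false] at h7
            simpa using h7
          have e8 := ev_heavy_true a' b' true h5
          have e9 := ev_heavy_false a' b' false h8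
          have e11 := hv_eq a'
          refine ⟨a'.map act ++ hole :: b', Or.inr ⟨a', b', hab, rfl⟩, Or.inr ⟨?_, ?_, ?_⟩⟩
          · rw [ev_bwd hw', if_neg (by simp)]; omega
          · rw [par_bwd hw']; exact h9
          · rw [ev_bwd hw', ev_bwd hw', if_neg (by simp), if_pos rfl]
            omega

end Pool.Agent.Sowing
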