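import Mathlib
import Pool.Agent.Sowing.Defs

set_option autoImplicit false

namespace Pool.Agent.Sowing

@[simp] theorem Player.other_other (p : Player) : p.other.other = p := by cases p <;> rfl

namespace Game

/-- `K` is an option of player `p` in `G`. -/
def IsOpt (p : Player) : Game → Game → Prop
  | .mk _ o, K => ∃ i, K = o p i

theorem wins_iff (G : Game) (p : Player) : G.wins p ↔ ∃ K, IsOpt p G K ∧ ¬ K.wins p.other := by
  cases G with
  | mk ι o =>
    simp only [wins, IsOpt]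
    constructor
    · rintro ⟨i, hi⟩; exact ⟨_, ⟨i, rfl⟩, hi⟩
    · rintro ⟨K, ⟨i, rfl⟩, hi⟩; exact ⟨i, hi⟩

theorem opt_induction {P : Game → Prop} (h : ∀ G, (∀ p K, IsOpt p G K → P K) → P G) (G : Game) :
    P G := by
  induction G with
  | mk ι o ih =>
    apply h
    rintro p K ⟨i, rfl⟩
    exact ih p i

theorem isOpt_add (p : Player) (G H K : Game) : IsOpt p (G.add H) K ↔
    (∃ G', IsOpt p G G' ∧ K = G'.add H) ∨ (∃ H', IsOpt p H H' ∧ K = G.add H') := by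
  cases G with
  | mk ι₁ o₁ =>
    cases H with
    | mk ι₂ o₂ =>
      simp only [add, addAux, IsOpt]
      constructor
      · rintro ⟨i | i, rfl⟩
        · exact Or.inl ⟨_, ⟨i, rfl⟩, rfl⟩
        · exact Or.inr ⟨_, ⟨i, rfl⟩, rfl⟩
      · rintro (⟨_, ⟨i, rfl⟩, rfl⟩ | ⟨_, ⟨i, rfl⟩, rfl⟩)
        · exact ⟨Sum.inl i, rfl⟩
        · exact ⟨Sum.inr i, rfl⟩

theorem isOpt_neg (p : Player) (G K : Game) : IsOpt p G.neg K ↔
    ∃ G', IsOpt p.other G G' ∧ K = G'.neg := by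
  cases G with
  | mk ι o =>
    simp only [neg, IsOpt]
    constructor
    · rintro ⟨i, rfl⟩; exact ⟨_, ⟨i, rfl⟩, rfl⟩
    · rintro ⟨_, ⟨i, rfl⟩, rfl⟩; exact ⟨i, rfl⟩

theorem isOpt_zero (p : Player) (K : Game) : ¬ IsOpt p zero K := by
  rintro ⟨i, _⟩; exact i.elim

theorem isOpt_cut_left (l r K : Game) : IsOpt .left (cut l r) K ↔ K = l := by
  constructor
  · rintro ⟨_, rfl⟩; rfl
  · rintro rfl; exact ⟨(), rfl⟩

theorem isOpt_cut_right (l r K : Game) : IsOpt .right (cut l r) K ↔ K = r := by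
  constructor
  · rintro ⟨_, rfl⟩; rfl
  · rintro rfl; exact ⟨(), rfl⟩

theorem isOpt_nimber (p : Player) (n : ℕ) (K : Game) :
    IsOpt p (nimber n) K ↔ ∃ k, k < n ∧ K = nimber k := by
  rw [nimber]
  simp only [IsOpt]
  constructor
  · rintro ⟨i, rfl⟩; exact ⟨i.1, i.2, rfl⟩
  · rintro ⟨k, hk, rfl⟩; exact ⟨⟨k, hk⟩, rfl⟩

theorem isOpt_nat_succ_left (n : ℕ) (K : Game) : IsOpt .left (nat (n + 1)) K ↔ K = nat n := by
  simp only [nat, IsOpt]
  constructor
  · rintro ⟨_, rfl⟩; rfl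
  · rintro rfl; exact ⟨(), rfl⟩

theorem isOpt_nat_right (n : ℕ) (K : Game) : ¬ IsOpt .right (nat n) K := by
  cases n with
  | zero => exact isOpt_zero _ _
  | succ n => rintro ⟨i, _⟩; exact i.elim

theorem isOpt_toGame (p : Player) (f : Pos) (K : Game) :
    IsOpt p (toGame f) K ↔ ∃ g, Move p f g ∧ K = toGame g := by
  rw [toGame]
  simp only [IsOpt]
  constructor
  · rintro ⟨i, rfl⟩; exact ⟨i.1, i.2, rfl⟩
  · rintro ⟨k, hk, rfl⟩; exact ⟨⟨k, hk⟩, rfl⟩

/-- A relation between games that is a bisimulation preserves outcomes. -/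
theorem wins_congr (R : Game → Game → Prop)
    (hR : ∀ G H, R G H → ∀ p, (∀ G', IsOpt p G G' → ∃ H', IsOpt p H H' ∧ R G' H') ∧
      (∀ H', IsOpt p H H' → ∃ G', IsOpt p G G' ∧ R G' H')) :
    ∀ G H, R G H → ∀ p, (G.wins p ↔ H.wins p) := by
  intro G
  induction G using opt_induction with
  | h G ih =>
    intro H h p
    rw [wins_iff, wins_iff]
    constructor
    · rintro ⟨K, hK, hw⟩
      obtain ⟨H', hH', hR'⟩ := (hR G H h p).1 K hK
      exact ⟨H', hH', fun hh => hw ((ih p K hK H' hR' p.other).2 hh)⟩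
    · rintro ⟨K, hK, hw⟩
      obtain ⟨G', hG', hR'⟩ := (hR G H h p).2 K hK
      exact ⟨G', hG', fun hh => hw ((ih p G' hG' K hR' p.other).1 hh)⟩

theorem sum_aux (X : Game) : ∀ Y : Game,
    (∀ p, ¬ X.wins p → ¬ Y.wins p → ¬ (X.add Y).wins p) ∧
    (∀ p, X.wins p → ¬ Y.wins p.other → (X.add Y).wins p) ∧
    (∀ p, Y.wins p → ¬ X.wins p.other → (X.add Y).wins p) := by
  induction X using opt_induction with
  | h X ihX =>
    intro Y
    induction Y using opt_induction with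
    | h Y ihY =>
      refine ⟨?_, ?_, ?_⟩
      · intro p hX hY hw
        rw [wins_iff] at hw
        obtain ⟨K, hK, hKw⟩ := hw
        rw [isOpt_add] at hK
        rcases hK with ⟨X', hX', rfl⟩ | ⟨Y', hY', rfl⟩
        · apply hKw
          apply (ihX p X' hX' Y).2.1
          · by_contra hc
            exact hX ((wins_iff X p).2 ⟨X', hX', hc⟩)
          · simpa using hY
        · apply hKw
          apply (ihY p Y' hY').2.2
          · by_contra hc
            exact hY ((wins_iff Y p).2 ⟨Y', hY', hc⟩)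
          · simpa using hX
      · intro p hX hY
        rw [wins_iff] at hX
        obtain ⟨X', hX', hw⟩ := hX
        rw [wins_iff]
        exact ⟨_, (isOpt_add p X Y _).2 (Or.inl ⟨X', hX', rfl⟩), (ihX p X' hX' Y).1 _ hw hY⟩
      · intro p hY hX
        rw [wins_iff] at hY
        obtain ⟨Y', hY', hw⟩ := hY
        rw [wins_iff]
        exact ⟨_, (isOpt_add p X Y _).2 (Or.inr ⟨Y', hY', rfl⟩), (ihY p Y' hY').1 _ hX hw⟩

theorem not_wins_add {X Y : Game} {p : Player} (hX : ¬ X.wins p) (hY : ¬ Y.wins p) :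
    ¬ (X.add Y).wins p := (sum_aux X Y).1 p hX hY

theorem IsOpt.addL {p : Player} {G G' : Game} (h : IsOpt p G G') (H : Game) :
    IsOpt p (G.add H) (G'.add H) := (isOpt_add p G H _).2 (Or.inl ⟨G', h, rfl⟩)

theorem IsOpt.addR {p : Player} {H H' : Game} (G : Game) (h : IsOpt p H H') :
    IsOpt p (G.add H) (G.add H') := (isOpt_add p G H _).2 (Or.inr ⟨H', h, rfl⟩)

theorem IsOpt.neg {p : Player} {G G' : Game} (h : IsOpt p.other G G') :
    IsOpt p G.neg G'.neg := (isOpt_neg p G _).2 ⟨G', h, rfl⟩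

theorem rearrange (A B C D : Game) (p : Player) :
    ((A.add C).add (B.add D).neg).wins p ↔ ((A.add B.neg).add (C.add D.neg)).wins p := by
  apply wins_congr (fun G H => ∃ A B C D : Game, G = (A.add C).add (B.add D).neg ∧
    H = (A.add B.neg).add (C.add D.neg)) _ _ _ ⟨A, B, C, D, rfl, rfl⟩
  rintro _ _ ⟨A, B, C, D, rfl, rfl⟩ p
  constructor
  · intro G' hG'
    simp only [isOpt_add, isOpt_neg] at hG'
    rcases hG' with ⟨_, ⟨A', hA, rfl⟩ | ⟨C', hC, rfl⟩, rfl⟩ | ⟨_, ⟨_, ⟨B', hB, rfl⟩ | ⟨D', hD, rfl⟩, rfl⟩, rfl⟩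
    · exact ⟨_, (hA.addL _).addL _, A', B, C, D, rfl, rfl⟩
    · exact ⟨_, IsOpt.addR _ (hC.addL _), A, B, C', D, rfl, rfl⟩
    · exact ⟨_, (IsOpt.addR _ (IsOpt.neg hB)).addL _, A, B', C, D, rfl, rfl⟩
    · exact ⟨_, IsOpt.addR _ (IsOpt.addR _ (IsOpt.neg hD)), A, B, C, D', rfl, rfl⟩
  · intro H' hH'
    simp only [isOpt_add, isOpt_neg] at hH'
    rcases hH' with ⟨_, ⟨A', hA, rfl⟩ | ⟨_, ⟨B', hB, rfl⟩, rfl⟩, rfl⟩ | ⟨_, ⟨C', hC, rfl⟩ | ⟨_, ⟨D', hD, rfl⟩, rfl⟩, rfl⟩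
    · exact ⟨_, (hA.addL _).addL _, A', B, C, D, rfl, rfl⟩
    · exact ⟨_, IsOpt.addR _ (IsOpt.neg (hB.addL _)), A, B', C, D, rfl, rfl⟩
    · exact ⟨_, (IsOpt.addR _ hC).addL _, A, B, C', D, rfl, rfl⟩
    · exact ⟨_, IsOpt.addR _ (IsOpt.neg (IsOpt.addR _ hD)), A, B, C, D', rfl, rfl⟩

theorem Equal.add {A B C D : Game} (h1 : A.Equal B) (h2 : C.Equal D) :
    (A.add C).Equal (B.add D) := by
  intro p
  rw [rearrange]
  exact not_wins_add (h1 p) (h2 p)


/-- If the options of `G` and of `H` match up to equality of values, then `G = H`. -/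
theorem equal_of_opts {G H : Game}
    (h : ∀ p, (∀ G', IsOpt p G G' → ∃ H', IsOpt p H H' ∧ G'.Equal H') ∧
      (∀ H', IsOpt p H H' → ∃ G', IsOpt p G G' ∧ G'.Equal H')) : G.Equal H := by
  intro p hw
  rw [wins_iff] at hw
  obtain ⟨K, hK, hKw⟩ := hw
  rw [isOpt_add] at hK
  apply hKw
  rw [wins_iff]
  rcases hK with ⟨G', hG', rfl⟩ | ⟨X, hX, rfl⟩
  · obtain ⟨H', hH', he⟩ := (h p).1 G' hG'
    refine ⟨_, IsOpt.addR _ (IsOpt.neg (p := p.other) (G' := H') ?_), ?_⟩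
    · rw [Player.other_other]; exact hH'
    · rw [Player.other_other]; exact he p
  · rw [isOpt_neg] at hX
    obtain ⟨H', hH', rfl⟩ := hX
    obtain ⟨G', hG', he⟩ := (h p.other).2 H' hH'
    refine ⟨_, hG'.addL _, ?_⟩
    rw [Player.other_other]; exact he p

/-- A game in which nobody can move is `0`. -/
theorem equal_of_no_opt {G H : Game} (hG : ∀ p K, ¬ IsOpt p G K) (hH : ∀ p K, ¬ IsOpt p H K) :
    G.Equal H :=
  equal_of_opts fun p => ⟨fun K hK => absurd hK (hG p K), fun K hK => absurd hK (hH p K)⟩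

/-- A criterion for `G = -(r+1)`. -/
theorem equal_neg_nat_succ {G : Game} {r : ℕ} (hL : ∀ K, ¬ IsOpt .left G K) (D : Game)
    (hD : IsOpt .right G D) (hDe : D.Equal (nat r).neg)
    (hR : ∀ K, IsOpt .right G K → K.Equal (nat r).neg ∨ ∀ K', ¬ IsOpt .right K K') :
    G.Equal (nat (r + 1)).neg := by
  have h1 : ∀ K, ¬ IsOpt .right (nat r).neg.neg K := by
    intro K hK
    rw [isOpt_neg] at hK
    obtain ⟨K', hK', rfl⟩ := hK
    rw [isOpt_neg] at hK'
    obtain ⟨K₂, hK₂, rfl⟩ := hK'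
    exact isOpt_nat_right r _ hK₂
  have h2 : IsOpt .left (nat (r + 1)).neg.neg (nat r).neg.neg := by
    apply IsOpt.neg
    apply IsOpt.neg
    exact (isOpt_nat_succ_left r _).2 rfl
  intro p hw
  rw [wins_iff] at hw
  obtain ⟨K, hK, hKw⟩ := hw
  rw [isOpt_add] at hK
  apply hKw
  cases p with
  | left =>
    rcases hK with ⟨G', hG', rfl⟩ | ⟨H', hH', rfl⟩
    · exact absurd hG' (hL _)
    · rw [isOpt_neg] at hH'
      obtain ⟨H₂, hH₂, rfl⟩ := hH'
      rw [isOpt_neg] at hH₂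
      obtain ⟨H₃, hH₃, rfl⟩ := hH₂
      have : H₃ = nat r := (isOpt_nat_succ_left r _).1 hH₃
      subst this
      rw [wins_iff]
      exact ⟨_, hD.addL _, hDe _⟩
  | right =>
    rcases hK with ⟨G', hG', rfl⟩ | ⟨H', hH', rfl⟩
    · rw [wins_iff]
      refine ⟨_, IsOpt.addR _ h2, ?_⟩
      rcases hR G' hG' with he | hn
      · exact he _
      · intro hw
        rw [wins_iff] at hw
        obtain ⟨K, hK, -⟩ := hw
        rw [isOpt_add] at hK
        rcases hK with ⟨K', hK', -⟩ | ⟨K', hK', -⟩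
        · exact hn _ hK'
        · exact h1 _ hK'
    · rw [isOpt_neg] at hH'
      obtain ⟨H₂, hH₂, rfl⟩ := hH'
      rw [isOpt_neg] at hH₂
      obtain ⟨H₃, hH₃, rfl⟩ := hH₂
      exact absurd hH₃ (isOpt_nat_right _ _)

end Game

end Pool.Agent.Sowing
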