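import Mathlib
import Pool.Agent.Sowing.Theory
import Pool.Agent.Sowing.Strategy

set_option autoImplicit false

namespace Pool.Agent.Sowing

open Cell

/-- how the content of a pot matches the state of a cell after `t` long sowings -/
def CellOK (K : ℤ) (t : ℕ) : Cell → ℕ → Prop
  | hole, v => v = 0
  | small, v => 1 ≤ v ∧ v ≤ t
  | heavy, v => K ≤ (v : ℤ) ∧ (v : ℤ) ≤ K + t

/-- The parameters of the construction. -/
structure Params where
  D : ℤ
  K : ℤ
  X : ℤ
  A : ℤ
  B : ℤ
  M : ℕ
  T : ℕ

/-- The pot of cell number `x`, when cells are counted from `c` in the direction of player `p`. -/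
def pot (P : Params) (p : Player) (c : ℤ) (x : ℕ) : ℤ := c + p.dir * (P.D * x)

structure Params.OK (P : Params) (p : Player) (c : ℤ) : Prop where
  hD : (P.T : ℤ) < P.D
  hK : P.D * P.M ≤ P.K
  hX : P.B - P.A < P.X
  hX0 : 0 < P.X
  hA : ∀ x : ℕ, x < P.M → P.A ≤ pot P p c x - (P.K + P.T)
  hB : ∀ x : ℕ, x < P.M → pot P p c x + (P.K + P.T) ≤ P.B

/-- The Sowing position `f` is in the state `w`. -/
structure Sea (P : Params) (p : Player) (c : ℤ) (f : Pos) (w : ℕ → Cell) (t : ℕ) : Prop where
  out : ∀ z, (z < P.A ∨ P.B < z) → f z = 0
  full : ∀ z, P.A ≤ z → z ≤ P.B → (∀ x : ℕ, x < P.M → z ≠ pot P p c x) → P.X ≤ (f z : ℤ)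
  cell : ∀ x : ℕ, x < P.M → CellOK P.K t (w x) (f (pot P p c x))

theorem dir_cases (p : Player) : p.dir = 1 ∨ p.dir = -1 := by cases p <;> simp [Player.dir]

theorem mul_bound {P : Params} {p : Player} {c : ℤ} (hP : P.OK p c) {x y : ℕ}
    (hx : x < P.M) (hy : y < P.M) :
    (x < y → P.D ≤ P.D * y - P.D * x ∧ P.D * y - P.D * x < P.K) ∧
    (y < x → P.D ≤ P.D * x - P.D * y ∧ P.D * x - P.D * y < P.K) ∧
    P.D * x < P.K ∧ P.D * y < P.K ∧ 0 ≤ P.D * x ∧ 0 ≤ P.D * y := by
  have hD := hP.hD
  have hK := hP.hK
  have hD0 : 0 < P.D := by have : (0 : ℤ) ≤ P.T := Int.natCast_nonneg _; omega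
  have hx' : (x : ℤ) + 1 ≤ P.M := by exact_mod_cast hx
  have hy' : (y : ℤ) + 1 ≤ P.M := by exact_mod_cast hy
  have hx0 : (0 : ℤ) ≤ x := Int.natCast_nonneg _
  have hy0 : (0 : ℤ) ≤ y := Int.natCast_nonneg _
  refine ⟨?_, ?_, ?_, ?_, ?_, ?_⟩
  · intro h
    have h' : (x : ℤ) + 1 ≤ y := by exact_mod_cast h
    constructor <;> nlinarith
  · intro h
    have h' : (y : ℤ) + 1 ≤ x := by exact_mod_cast h
    constructor <;> nlinarith
  · nlinarith
  · nlinarith
  · positivity
  · positivity

/-- which cells are passed when player `r` plays the heavy cell `x` -/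
def Passed (p r : Player) (x y : ℕ) : Prop := (r = p ∧ x < y) ∨ (r = p.other ∧ y < x)

open Classical in
/-- the new state after player `r` plays the heavy cell `x` -/
noncomputable def heavyStep (p r : Player) (w : ℕ → Cell) (x : ℕ) : ℕ → Cell := fun y =>
  if y = x then hole else if Passed p r x y then act (w y) else w y

theorem heavyStep_self (p r : Player) (w : ℕ → Cell) (x : ℕ) : heavyStep p r w x x = hole := by
  simp [heavyStep]

theorem heavyStep_passed {p r : Player} (w : ℕ → Cell) {x y : ℕ} (hne : y ≠ x)
    (h : Passed p r x y) : heavyStep p r w x y = act (w y) := by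
  simp [heavyStep, hne, h]

theorem heavyStep_not {p r : Player} (w : ℕ → Cell) {x y : ℕ} (hne : y ≠ x)
    (h : ¬ Passed p r x y) : heavyStep p r w x y = w y := by
  simp [heavyStep, hne, h]

/-- the new state after a small cell is played -/
def smallStep (w : ℕ → Cell) (x : ℕ) : ℕ → Cell := fun y => if y = x then hole else w y

theorem other_dir (p : Player) : p.other.dir = - p.dir := by cases p <;> simp [Player.dir, Player.other]

theorem player_cases (p r : Player) : r = p ∨ r = p.other := by cases p <;> cases r <;> simp [Player.other]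

/-- description of a sowing from cell `x` at the cells -/
theorem sow_pot {P : Params} {p : Player} {c : ℤ} (r : Player) (f : Pos) (x y : ℕ) :
    (r = p → r.dir * (pot P p c y - pot P p c x) = P.D * y - P.D * x) ∧
    (r = p.other → r.dir * (pot P p c y - pot P p c x) = P.D * x - P.D * y) := by
  constructor
  · rintro rfl
    have h := r.dir_sq
    unfold pot
    linear_combination (P.D * (y : ℤ) - P.D * x) * h
  · rintro rfl
    have h := p.dir_sq
    rw [other_dir]
    unfold pot
    linear_combination -(P.D * (y : ℤ) - P.D * x) * h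

theorem pot_inj {P : Params} {p : Player} {c : ℤ} (hP : P.OK p c) {x y : ℕ}
    (hx : x < P.M) (hy : y < P.M) (h : pot P p c x = pot P p c y) : x = y := by
  have hb := mul_bound hP hx hy
  have hD := hP.hD
  have hT : (0 : ℤ) ≤ P.T := Int.natCast_nonneg _
  have h2 := (sow_pot (P := P) (c := c) p (0 : Pos) x y).1 rfl
  rw [h] at h2
  simp only [sub_self, mul_zero] at h2
  rcases lt_trichotomy x y with h3 | h3 | h3
  · have := hb.1 h3; omega
  · exact h3
  · have := hb.2.1 h3; omega

/-- The sowing of a cell is inside the row. -/
theorem sow_out {P : Params} {p : Player} {c : ℤ} (hP : P.OK p c) {f : Pos} {w : ℕ → Cell} {t : ℕ}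
    (h : Sea P p c f w t) (r : Player) {x : ℕ} (hx : x < P.M)
    (hk : (f (pot P p c x) : ℤ) ≤ P.K + P.T) :
    ∀ z, (z < P.A ∨ P.B < z) → sow r f (pot P p c x) z = 0 := by
  intro z hz
  have h1 := h.out z hz
  have hA := hP.hA x hx
  have hB := hP.hB x hx
  rw [sow_apply, h1]
  split_ifs with h2 h3
  · rfl
  · exfalso
    rcases dir_cases r with hr | hr <;> rw [hr] at h3 <;> omega
  · rfl

theorem sow_full {P : Params} {p : Player} {c : ℤ} {f : Pos} {w : ℕ → Cell} {t : ℕ}
    (h : Sea P p c f w t) (r : Player) {x : ℕ} (hx : x < P.M) :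
    ∀ z, P.A ≤ z → z ≤ P.B → (∀ x : ℕ, x < P.M → z ≠ pot P p c x) →
      P.X ≤ (sow r f (pot P p c x) z : ℤ) := by
  intro z h1 h2 h3
  have h4 := h.full z h1 h2 h3
  rw [sow_apply, if_neg (h3 x hx)]
  push_cast
  split_ifs <;> omega

theorem small_step {P : Params} {p : Player} {c : ℤ} (hP : P.OK p c) {f : Pos} {w : ℕ → Cell}
    {t : ℕ} (h : Sea P p c f w t) (ht : t ≤ P.T) (r : Player) {x : ℕ} (hx : x < P.M)
    (hw : w x = small) :
    Move r f (sow r f (pot P p c x)) ∧ Sea P p c (sow r f (pot P p c x)) (smallStep w x) t := by
  have hc := h.cell x hx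
  rw [hw] at hc
  obtain ⟨hc1, hc2⟩ := hc
  have hD := hP.hD
  have hA := hP.hA x hx
  have hB := hP.hB x hx
  have hb0 := mul_bound hP hx hx
  have hX := hP.hX0
  have key : ∀ y, y < P.M → ¬ (1 ≤ r.dir * (pot P p c y - pot P p c x) ∧
      r.dir * (pot P p c y - pot P p c x) ≤ (f (pot P p c x) : ℤ)) := by
    intro y hy hcon
    have hb := mul_bound hP hx hy
    have hs := sow_pot (P := P) (p := p) (c := c) r f x y
    rcases player_cases p r with hr | hr
    · rw [hs.1 hr] at hcon
      rcases lt_trichotomy x y with h3 | h3 | h3
      · have := hb.1 h3; omega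
      · subst h3; omega
      · have := hb.2.1 h3; omega
    · rw [hs.2 hr] at hcon
      rcases lt_trichotomy x y with h3 | h3 | h3
      · have := hb.1 h3; omega
      · subst h3; omega
      · have := hb.2.1 h3; omega
  constructor
  · refine ⟨pot P p c x, by omega, ?_, rfl⟩
    have hfull := h.full (pot P p c x + r.dir * (f (pot P p c x) : ℤ)) ?_ ?_ ?_
    · omega
    · rcases dir_cases r with hr | hr <;> rw [hr] <;> omega
    · rcases dir_cases r with hr | hr <;> rw [hr] <;> omega
    · intro y hy hcon
      apply key y hy
      rw [← hcon]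
      have := r.dir_sq
      have e : r.dir * (pot P p c x + r.dir * (f (pot P p c x) : ℤ) - pot P p c x)
          = (f (pot P p c x) : ℤ) := by linear_combination (f (pot P p c x) : ℤ) * this
      rw [e]; constructor
      · exact_mod_cast hc1
      · exact le_rfl
  · refine ⟨sow_out hP h r hx (by omega), sow_full h r hx, ?_⟩
    intro y hy
    have hcy := h.cell y hy
    rw [sow_apply]
    by_cases hyx : y = x
    · subst hyx
      simp [smallStep, CellOK]
    · rw [if_neg (fun hh => hyx (pot_inj hP hy hx hh)), if_neg (key y hy)]
      simpa [smallStep, hyx] using hcy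

theorem heavy_step {P : Params} {p : Player} {c : ℤ} (hP : P.OK p c) {f : Pos} {w : ℕ → Cell}
    {t : ℕ} (h : Sea P p c f w t) (ht : t + 1 ≤ P.T) (r : Player) {x : ℕ} (hx : x < P.M)
    (hw : w x = heavy) :
    Move r f (sow r f (pot P p c x)) ∧
      Sea P p c (sow r f (pot P p c x)) (heavyStep p r w x) (t + 1) := by
  have hc := h.cell x hx
  rw [hw] at hc
  obtain ⟨hc1, hc2⟩ := hc
  have hD := hP.hD
  have hA := hP.hA x hx
  have hB := hP.hB x hx
  have hX := hP.hX0
  have hb0 := mul_bound hP hx hx
  have key : ∀ y, y < P.M → ((1 ≤ r.dir * (pot P p c y - pot P p c x) ∧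
      r.dir * (pot P p c y - pot P p c x) ≤ (f (pot P p c x) : ℤ)) ↔ Passed p r x y) ∧
      r.dir * (pot P p c y - pot P p c x) ≠ (f (pot P p c x) : ℤ) := by
    intro y hy
    have hb := mul_bound hP hx hy
    have hs := sow_pot (P := P) (p := p) (c := c) r f x y
    unfold Passed
    have hne : p ≠ p.other := by cases p <;> simp [Player.other]
    rcases player_cases p r with hr | hr
    · rw [hs.1 hr]
      have h1 : ¬ (r = p.other) := by rw [hr]; exact hne
      simp only [hr, true_and, hne, false_and, or_false]
      rcases lt_trichotomy x y with h3 | h3 | h3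
      · have := hb.1 h3; constructor
        · constructor
          · intro _; exact h3
          · intro _; omega
        · omega
      · subst h3; constructor
        · constructor
          · intro _; omega
          · intro _; omega
        · omega
      · have := hb.2.1 h3; constructor
        · constructor
          · intro _; omega
          · intro _; omega
        · omega
    · rw [hs.2 hr]
      have h1 : ¬ (p.other = p) := fun hh => hne hh.symm
      simp only [hr, true_and, h1, false_and, false_or]
      rcases lt_trichotomy x y with h3 | h3 | h3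
      · have := hb.1 h3; constructor
        · constructor
          · intro _; omega
          · intro _; omega
        · omega
      · subst h3; constructor
        · constructor
          · intro _; omega
          · intro _; omega
        · omega
      · have := hb.2.1 h3; constructor
        · constructor
          · intro _; exact h3
          · intro _; omega
        · omega
  constructor
  · refine ⟨pot P p c x, by omega, ?_, rfl⟩
    have hfull := h.full (pot P p c x + r.dir * (f (pot P p c x) : ℤ)) ?_ ?_ ?_
    · omega
    · rcases dir_cases r with hr | hr <;> rw [hr] <;> omega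
    · rcases dir_cases r with hr | hr <;> rw [hr] <;> omega
    · intro y hy hcon
      apply (key y hy).2
      rw [← hcon]
      have := r.dir_sq
      linear_combination (f (pot P p c x) : ℤ) * this
  · refine ⟨sow_out hP h r hx (by omega), sow_full h r hx, ?_⟩
    intro y hy
    have hcy := h.cell y hy
    rw [sow_apply]
    by_cases hyx : y = x
    · subst hyx
      simp [heavyStep, CellOK]
    · rw [if_neg (fun hh => hyx (pot_inj hP hy hx hh))]
      by_cases hpass : Passed p r x y
      · rw [if_pos ((key y hy).1.2 hpass)]
        simp only [heavyStep, hyx, if_false, hpass, if_true]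
        rcases hwy : w y with _ | _ | _
        · rw [hwy] at hcy
          simp only [CellOK, act] at hcy ⊢
          omega
        · rw [hwy] at hcy
          simp only [CellOK, act] at hcy ⊢
          omega
        · rw [hwy] at hcy
          simp only [CellOK, act] at hcy ⊢
          push_cast
          omega
      · rw [if_neg (fun hh => hpass ((key y hy).1.1 hh))]
        simp only [heavyStep, hyx, if_false, hpass]
        rcases hwy : w y with _ | _ | _
        · rw [hwy] at hcy
          simp only [CellOK] at hcy ⊢
          omega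
        · rw [hwy] at hcy
          simp only [CellOK] at hcy ⊢
          omega
        · rw [hwy] at hcy
          simp only [CellOK] at hcy ⊢
          push_cast
          omega

/-- Only cells can be sown. -/
theorem move_cell {P : Params} {p : Player} {c : ℤ} (hP : P.OK p c) {f : Pos} {w : ℕ → Cell}
    {t : ℕ} (h : Sea P p c f w t) {r : Player} {g : Pos} (hm : Move r f g) :
    ∃ x, x < P.M ∧ (w x = small ∨ w x = heavy) ∧ g = sow r f (pot P p c x) := by
  obtain ⟨i, hi, hl, rfl⟩ := hm
  have hin : ∀ z, 0 < f z → P.A ≤ z ∧ z ≤ P.B := by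
    intro z hz
    by_contra hcon
    have := h.out z (by omega)
    omega
  by_cases hcell : ∃ x, x < P.M ∧ i = pot P p c x
  · obtain ⟨x, hx, rfl⟩ := hcell
    refine ⟨x, hx, ?_, rfl⟩
    have hc := h.cell x hx
    rcases hwx : w x with _ | _ | _
    · rw [hwx] at hc
      simp only [CellOK] at hc
      omega
    · left; rfl
    · right; rfl
  · exfalso
    have h1 := hin i hi
    have h2 := hin _ hl
    have h3 := h.full i h1.1 h1.2 (fun x hx hh => hcell ⟨x, hx, hh⟩)
    have hX := hP.hX
    rcases dir_cases r with hr | hr <;> rw [hr] at h2 <;> omega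

/-- the word of a state -/
def word (M : ℕ) (w : ℕ → Cell) : List Cell := (List.range M).map w

theorem range_split {M x : ℕ} (hx : x < M) (w : ℕ → Cell) :
    word M w = (List.range x).map w ++ w x :: (List.range (M - 1 - x)).map (fun j => w (x + 1 + j)) := by
  unfold word
  obtain ⟨k, rfl⟩ : ∃ k, M = x + 1 + k := ⟨M - 1 - x, by omega⟩
  rw [List.range_add, List.map_append, List.range_succ, List.map_append]
  simp only [List.map_map, List.append_assoc, List.map_cons, List.map_nil, List.cons_append,
    List.nil_append]
  congr 2
  have : x + 1 + k - 1 - x = k := by omega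
  rw [this]
  rfl

theorem word_small {M x : ℕ} (hx : x < M) {w : ℕ → Cell} (hw : w x = small) :
    SmallMove (word M w) (word M (smallStep w x)) := by
  refine ⟨(List.range x).map w, (List.range (M - 1 - x)).map (fun j => w (x + 1 + j)), ?_, ?_⟩
  · rw [range_split hx w, hw]
  · rw [range_split hx (smallStep w x)]
    congr 1
    · apply List.map_congr_left
      intro a ha
      rw [List.mem_range] at ha
      simp [smallStep, ha.ne]
    · congr 1
      · simp [smallStep]
      · apply List.map_congr_left
        intro a _
        simp only [smallStep]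
        rw [if_neg (by omega)]

theorem word_fwd {M x : ℕ} (hx : x < M) {w : ℕ → Cell} (p : Player) (hw : w x = heavy) :
    Fwd (word M w) (word M (heavyStep p p w x)) := by
  have hne : p ≠ p.other := by cases p <;> simp [Player.other]
  refine ⟨(List.range x).map w, (List.range (M - 1 - x)).map (fun j => w (x + 1 + j)), ?_, ?_⟩
  · rw [range_split hx w, hw]
  · rw [range_split hx (heavyStep p p w x)]
    congr 1
    · apply List.map_congr_left
      intro a ha
      rw [List.mem_range] at ha
      apply heavyStep_not w ha.ne
      rintro (⟨_, h⟩ | ⟨h, _⟩)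
      · omega
      · exact hne h
    · congr 1
      · simp [heavyStep]
      · rw [List.map_map]
        apply List.map_congr_left
        intro a _
        exact heavyStep_passed w (by omega) (Or.inl ⟨rfl, by omega⟩)

theorem word_bwd {M x : ℕ} (hx : x < M) {w : ℕ → Cell} (p : Player) (hw : w x = heavy) :
    Bwd (word M w) (word M (heavyStep p p.other w x)) := by
  have hne : p.other ≠ p := by cases p <;> simp [Player.other]
  refine ⟨(List.range x).map w, (List.range (M - 1 - x)).map (fun j => w (x + 1 + j)), ?_, ?_⟩
  · rw [range_split hx w, hw]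
  · rw [range_split hx (heavyStep p p.other w x)]
    congr 1
    · rw [List.map_map]
      apply List.map_congr_left
      intro a ha
      rw [List.mem_range] at ha
      exact heavyStep_passed w ha.ne (Or.inr ⟨rfl, ha⟩)
    · congr 1
      · simp [heavyStep]
      · apply List.map_congr_left
        intro a _
        apply heavyStep_not w (by omega)
        rintro (⟨h, _⟩ | ⟨_, h⟩)
        · exact hne h
        · omega

theorem split_index {M : ℕ} {w : ℕ → Cell} {a b : List Cell} {s : Cell}
    (h : word M w = a ++ s :: b) : a.length < M ∧ w a.length = s ∧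
      a = (List.range a.length).map w ∧
      b = (List.range (M - 1 - a.length)).map (fun j => w (a.length + 1 + j)) := by
  have hlen : M = a.length + (b.length + 1) := by
    have := congrArg List.length h
    simpa [word] using this
  have hx : a.length < M := by omega
  have h2 := range_split hx w
  rw [h] at h2
  have h3 := List.append_inj h2 (by simp)
  obtain ⟨h4, h5⟩ := h3
  rw [List.cons.injEq] at h5
  exact ⟨hx, h5.1.symm, h4, h5.2⟩

theorem small_of_word {M : ℕ} {w : ℕ → Cell} {v : List Cell} (h : SmallMove (word M w) v) :
    ∃ x, x < M ∧ w x = small ∧ v = word M (smallStep w x) := by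
  obtain ⟨a, b, h1, rfl⟩ := h
  obtain ⟨hx, h2, h3, h4⟩ := split_index h1
  refine ⟨a.length, hx, h2, ?_⟩
  obtain ⟨a', b', h5, h6⟩ := word_small hx h2
  obtain ⟨hx', h2', h3', h4'⟩ := split_index h5
  rw [h6]
  have h7 := split_index (s := hole) (a := a') (b := b') (M := M) (w := smallStep w a.length) h6
  -- both splittings agree because the lengths agree
  rw [h1] at h5
  have hl : a.length = a'.length := by
    by_contra hne
    have e : word M (smallStep w a.length) = a' ++ hole :: b' := h6
    have e1 := range_split hx (smallStep w a.length)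
    have e2 : smallStep w a.length a'.length = w a'.length := by
      simp [smallStep, Ne.symm hne]
    have := h7.2.1
    rw [e2, h2'] at this
    exact absurd this (by simp)
  have h8 := List.append_inj h5 hl
  rw [h8.1]
  have h9 := h8.2
  rw [List.cons.injEq] at h9
  rw [h9.2]

theorem heavy_of_word {M : ℕ} {w : ℕ → Cell} {v : List Cell} (p : Player) (h : Bwd (word M w) v) :
    ∃ x, x < M ∧ w x = heavy ∧ v = word M (heavyStep p p.other w x) := by
  obtain ⟨a, b, h1, rfl⟩ := h
  obtain ⟨hx, h2, h3, h4⟩ := split_index h1
  refine ⟨a.length, hx, h2, ?_⟩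
  have hne : p.other ≠ p := by cases p <;> simp [Player.other]
  rw [range_split hx]
  rw [h3]
  simp only [List.length_map, List.length_range]
  congr 1
  · rw [List.map_map]
    apply List.map_congr_left
    intro y hy
    rw [List.mem_range] at hy
    exact (heavyStep_passed w hy.ne (Or.inr ⟨rfl, hy⟩)).symm
  · congr 1
    · simp [heavyStep]
    · rw [h4]
      apply List.map_congr_left
      intro y _
      symm
      apply heavyStep_not w (by omega)
      rintro (⟨h, _⟩ | ⟨_, h⟩)
      · exact hne h
      · omega

end Pool.Agent.Sowing
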