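import Mathlib
import Pool.Agent.Sowing.Sea
import Pool.Agent.Sowing.Positions

set_option autoImplicit false

namespace Pool.Agent.Sowing

open Cell

theorem Game.opt_induction₂ {P : Game → Prop}
    (h : ∀ G, (∀ p K, IsOpt p G K → ∀ q L, IsOpt q K L → P L) → P G) (G : Game) : P G := by
  have key : ∀ G, P G ∧ ∀ p K, Game.IsOpt p G K → P K := by
    intro G
    induction G using Game.opt_induction with
    | h G ih =>
      refine ⟨h G (fun p K hK q L hL => (ih p K hK).2 q L hL), fun p K hK => (ih p K hK).1⟩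
  exact (key G).1

open Game

theorem hv_small {w w' : List Cell} (h : SmallMove w w') : hv w' = hv w := by
  obtain ⟨a, b, rfl, rfl⟩ := h
  simp [hv_append, hv]

theorem hv_fwd {w w' : List Cell} (h : Fwd w w') : hv w' + 1 = hv w := by
  obtain ⟨a, b, rfl, rfl⟩ := h
  simp [hv_append, hv, hv_map_act]; omega

theorem hv_bwd {w w' : List Cell} (h : Bwd w w') : hv w' + 1 = hv w := by
  obtain ⟨a, b, rfl, rfl⟩ := h
  simp [hv_append, hv, hv_map_act]; omega

theorem sea_lose {P : Params} {p : Player} {c : ℤ} (hP : P.OK p c) (G : Game) :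
    ∀ (f : Pos) (w : ℕ → Cell) (t N : ℕ), G = (toGame f).add (nimber N).neg → Sea P p c f w t →
      Good (word P.M w) → t + hv (word P.M w) ≤ P.T → Lose (word P.M w) N → ¬ G.wins p := by
  induction G using opt_induction₂ with
  | h G ih =>
    intro f w t N hG hsea hgood ht hlose hwin
    subst hG
    rw [wins_iff] at hwin
    obtain ⟨K, hK, hKw⟩ := hwin
    apply hKw
    -- it is enough to find a reply
    have reply : ∀ (f' : Pos) (w' : ℕ → Cell) (t' N' : ℕ),
        IsOpt p.other K ((toGame f').add (nimber N').neg) → Sea P p c f' w' t' →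
        Good (word P.M w') → t' + hv (word P.M w') ≤ P.T → Lose (word P.M w') N' →
        K.wins p.other := by
      intro f' w' t' N' hopt h1 h2 h3 h4
      rw [wins_iff]
      refine ⟨_, hopt, ?_⟩
      rw [Player.other_other]
      exact ih p K hK p.other _ hopt f' w' t' N' rfl h1 h2 h3 h4
    -- the second player moves in the word
    have reply_in_word : ∀ (f' : Pos) (w' : ℕ → Cell) (t' N' : ℕ),
        K = (toGame f').add (nimber N').neg → Sea P p c f' w' t' → Good (word P.M w') →
        t' + hv (word P.M w') ≤ P.T →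
        ∀ v N'', N'' = N' → (SmallMove (word P.M w') v ∨ Bwd (word P.M w') v) → Lose v N'' →
        K.wins p.other := by
      rintro f' w' t' N' rfl h1 h2 h3 v _ rfl hv' h4
      rcases hv' with hv' | hv'
      · obtain ⟨x, hx, hwx, rfl⟩ := small_of_word hv'
        obtain ⟨hm, hs⟩ := small_step hP h1 (by omega) p.other hx hwx
        refine reply _ _ _ _ (IsOpt.addL ((isOpt_toGame _ _ _).2 ⟨_, hm, rfl⟩) _) hs (h2.small hv') ?_ h4
        rw [hv_small hv']; exact h3
      · obtain ⟨x, hx, hwx, rfl⟩ := heavy_of_word p hv'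
        have h5 := hv_bwd hv'
        obtain ⟨hm, hs⟩ := heavy_step hP h1 (by omega) p.other hx hwx
        refine reply _ _ _ _ (IsOpt.addL ((isOpt_toGame _ _ _).2 ⟨_, hm, rfl⟩) _) hs (h2.bwd hv') ?_ h4
        omega
    rw [isOpt_add] at hK
    rcases hK with ⟨_, hf', rfl⟩ | ⟨_, hN', rfl⟩
    · -- a move in the Sowing position
      rw [isOpt_toGame] at hf'
      obtain ⟨g, hmove, rfl⟩ := hf'
      obtain ⟨x, hx, hwx, rfl⟩ := move_cell hP hsea hmove
      have main : ∀ (w' : ℕ → Cell) (t' : ℕ), Sea P p c (sow p f (pot P p c x)) w' t' →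
          (SmallMove (word P.M w) (word P.M w') ∨ Fwd (word P.M w) (word P.M w')) →
          Good (word P.M w') → t' + hv (word P.M w') ≤ P.T →
          ((toGame (sow p f (pot P p c x))).add (nimber N).neg).wins p.other := by
        intro w' t' h1 h2 h3 h4
        rcases reply_word hgood hlose h2 with ⟨N', hN', hL⟩ | ⟨v, hv', hL⟩
        · refine reply _ _ _ N' (IsOpt.addR _ (IsOpt.neg ?_)) h1 h3 h4 hL
          exact (isOpt_nimber _ _ _).2 ⟨N', hN', rfl⟩
        · exact reply_in_word _ _ _ _ rfl h1 h3 h4 v N rfl hv' hL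
      rcases hwx with hwx | hwx
      · obtain ⟨_, hs⟩ := small_step hP hsea (by omega) p hx hwx
        have hsm := word_small hx hwx
        refine main _ _ hs (Or.inl hsm) (hgood.small hsm) ?_
        rw [hv_small hsm]; exact ht
      · have hfw := word_fwd hx p hwx
        have h5 := hv_fwd hfw
        obtain ⟨_, hs⟩ := heavy_step hP hsea (by omega) p hx hwx
        refine main _ _ hs (Or.inr hfw) (hgood.fwd hfw) ?_
        omega
    · -- a move in the Nim heap
      rw [isOpt_neg] at hN'
      obtain ⟨_, hN', rfl⟩ := hN'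
      rw [isOpt_nimber] at hN'
      obtain ⟨k, hk, rfl⟩ := hN'
      obtain ⟨v, hv', hL⟩ := reply_heap hgood hlose hk
      exact reply_in_word f w t k rfl hsea hgood ht v k rfl hv' hL

/-- the starting state -/
def start (x : ℕ) : Cell := if 2 ∣ x then heavy else hole

theorem start_word (j : ℕ) : par true (word (4 * j + 1) start) = false ∧
    ev true (word (4 * j + 1) start) = j + 1 ∧ ev false (word (4 * j + 1) start) = j ∧
    wf true (word (4 * j + 1) start) := by
  induction j with
  | zero => simp [word, start, par, ev, wf]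
  | succ j ih =>
    obtain ⟨h1, h2, h3, h4⟩ := ih
    have e : word (4 * (j + 1) + 1) start = word (4 * j + 1) start ++ [hole, heavy, hole, heavy] := by
      have : 4 * (j + 1) + 1 = 4 * j + 1 + 4 := by ring
      rw [this]
      unfold word
      rw [List.range_add, List.map_append]
      congr 1
      simp only [List.map_map]
      have r : List.range 4 = [0, 1, 2, 3] := rfl
      rw [r]
      simp only [List.map_cons, List.map_nil, Function.comp, start]
      rw [if_neg (by omega), if_pos (by omega), if_neg (by omega), if_pos (by omega)]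
    have h5 : par false (word (4 * j + 1) start) = true := by rw [par_false, h1]; rfl
    have hlen : (word (4 * j + 1) start).length = 4 * j + 1 := by simp [word]
    have hodd : ¬ Even (4 * j + 1) := by
      rw [Nat.not_even_iff_odd]; exact ⟨2 * j, by ring⟩
    rw [e]
    refine ⟨?_, ?_, ?_, ?_⟩
    · rw [par_append, h1]; rfl
    · rw [ev_append, h1, h2]; rfl
    · rw [ev_append, h5, h3]; rfl
    · rw [wf_append, hlen, if_neg hodd]
      exact ⟨h4, by simp [wf]⟩

theorem nimPos_apply (n : ℕ) (z : ℤ) : nimPos n z = nimFun n z := rfl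

/-- the parameters of `nimPos (j+1)` -/
def nimParams (n : ℕ) : Params where
  D := 2 * n
  K := nimK n
  X := nimW n + 2 * nimR n + 1
  A := -(nimR n : ℤ)
  B := (nimW n : ℤ) + nimR n
  M := 4 * n - 3
  T := 2 * n - 1

theorem nimW_succ (j : ℕ) : (nimW (j + 1) : ℤ) = 8 * (j + 1) * j := by
  unfold nimW; push_cast; simp

theorem nimK_succ (j : ℕ) : (nimK (j + 1) : ℤ) = 2 * (j + 1) * (4 * j + 1) := by
  unfold nimK
  have : 4 * (j + 1) - 3 = 4 * j + 1 := by omega
  rw [this]; push_cast; ring

/-- the counting origin for the two players -/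
def origin (n : ℕ) : Player → ℤ
  | .left => 0
  | .right => nimW n

theorem nim_pot (j : ℕ) (p : Player) (x : ℕ) (hx : x < 4 * j + 1) :
    ∃ y : ℕ, y < 4 * j + 1 ∧ (2 ∣ y ↔ 2 ∣ x) ∧
      pot (nimParams (j + 1)) p (origin (j + 1) p) x = 2 * ((j : ℤ) + 1) * y := by
  cases p with
  | left =>
    refine ⟨x, hx, Iff.rfl, ?_⟩
    simp [pot, nimParams, origin, Player.dir]
  | right =>
    refine ⟨4 * j - x, by omega, by omega, ?_⟩
    have : ((4 * j - x : ℕ) : ℤ) = 4 * j - x := by omega
    simp only [pot, nimParams, origin, Player.dir, nimW_succ]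
    rw [this]; push_cast; ring

theorem nim_pot_surj (j : ℕ) (p : Player) (y : ℕ) (hy : y < 4 * j + 1) :
    ∃ x : ℕ, x < 4 * j + 1 ∧
      2 * ((j : ℤ) + 1) * y = pot (nimParams (j + 1)) p (origin (j + 1) p) x := by
  cases p with
  | left =>
    refine ⟨y, hy, ?_⟩
    simp [pot, nimParams, origin, Player.dir]
  | right =>
    refine ⟨4 * j - y, by omega, ?_⟩
    have : ((4 * j - y : ℕ) : ℤ) = 4 * j - y := by omega
    simp only [pot, nimParams, origin, Player.dir, nimW_succ]
    rw [this]; push_cast; ring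

theorem nimM (j : ℕ) : (nimParams (j + 1)).M = 4 * j + 1 := by
  simp [nimParams]; omega

theorem nim_ok (j : ℕ) (p : Player) : (nimParams (j + 1)).OK p (origin (j + 1) p) := by
  have hW := nimW_succ j
  have hK := nimK_succ j
  have hj : (0 : ℤ) ≤ j := Int.natCast_nonneg _
  have hR : (nimR (j + 1) : ℤ) = nimK (j + 1) + 2 * (j + 1) := by unfold nimR; push_cast; ring
  constructor
  · simp only [nimParams]; omega
  · rw [nimM]; simp only [nimParams]; rw [hK]; push_cast; ring_nf; rfl
  · simp only [nimParams]; omega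
  · simp only [nimParams]; omega
  · intro x hx
    rw [nimM] at hx
    obtain ⟨y, hy, _, h2⟩ := nim_pot j p x hx
    rw [h2]
    simp only [nimParams]
    have : (0 : ℤ) ≤ 2 * ((j : ℤ) + 1) * y := by positivity
    omega
  · intro x hx
    rw [nimM] at hx
    obtain ⟨y, hy, _, h2⟩ := nim_pot j p x hx
    rw [h2]
    simp only [nimParams]
    have hy' : (y : ℤ) ≤ 4 * j := by omega
    have : 2 * ((j : ℤ) + 1) * y ≤ 8 * (j + 1) * j := by nlinarith
    omega

theorem nim_sea (j : ℕ) (p : Player) :
    Sea (nimParams (j + 1)) p (origin (j + 1) p) (nimPos (j + 1)) start 0 := by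
  have hW := nimW_succ j
  have hK := nimK_succ j
  have hj : (0 : ℤ) ≤ j := Int.natCast_nonneg _
  have hj1 : (0 : ℤ) < 2 * ((j : ℤ) + 1) := by omega
  constructor
  · intro z hz
    simp only [nimParams] at hz
    rw [nimPos_apply, nimFun, if_pos hz]
  · intro z h1 h2 h3
    simp only [nimParams] at h1 h2 h3 ⊢
    rw [nimPos_apply, nimFun, if_neg (by omega), if_neg]
    · push_cast; omega
    · rintro ⟨h4, h5, h6⟩
      obtain ⟨q, hq⟩ := h6
      push_cast at hq
      have hq0 : 0 ≤ q := by
        by_contra hneg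
        have : q ≤ -1 := by omega
        nlinarith
      have hq1 : q ≤ 4 * j := by
        by_contra hneg
        have : 4 * (j : ℤ) + 1 ≤ q := by omega
        nlinarith
      obtain ⟨x, hx, hx2⟩ := nim_pot_surj j p q.toNat (by omega)
      have hqn : ((q.toNat : ℕ) : ℤ) = q := Int.toNat_of_nonneg hq0
      apply h3 x (by omega)
      rw [hqn] at hx2
      rw [hq]
      exact hx2
  · intro x hx
    rw [nimM] at hx
    obtain ⟨y, hy, hpar, h2⟩ := nim_pot j p x hx
    rw [h2, nimPos_apply, nimFun]
    have hy' : (y : ℤ) ≤ 4 * j := by omega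
    have hy0 : (0 : ℤ) ≤ y := Int.natCast_nonneg _
    have hle : 2 * ((j : ℤ) + 1) * y ≤ nimW (j + 1) := by rw [hW]; nlinarith
    have hge : (0 : ℤ) ≤ 2 * ((j : ℤ) + 1) * y := by positivity
    rw [if_neg (by omega), if_pos ⟨hge, hle, by push_cast; exact Dvd.intro _ rfl⟩]
    have hdvd : ((4 * ((j + 1 : ℕ) : ℤ)) ∣ 2 * ((j : ℤ) + 1) * y) ↔ 2 ∣ y := by
      push_cast
      constructor
      · rintro ⟨q, hq⟩
        have : (y : ℤ) = 2 * q := by
          have h5 : 2 * ((j : ℤ) + 1) * y = 2 * ((j : ℤ) + 1) * (2 * q) := by rw [hq]; ring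
          exact mul_left_cancel₀ hj1.ne' h5
        omega
      · rintro ⟨q, hq⟩
        refine ⟨(q : ℤ), ?_⟩
        rw [hq]; push_cast; ring
    by_cases h5 : 2 ∣ x
    · rw [if_pos (hdvd.2 (hpar.2 h5))]
      simp only [start, h5, if_true, CellOK, nimParams]
      omega
    · rw [if_neg (fun h => h5 (hpar.1 (hdvd.1 h)))]
      simp [start, h5, CellOK]

theorem nimPos_value (n : ℕ) (hn : 1 ≤ n) : HasValue (nimPos n) (nimber n) := by
  obtain ⟨j, rfl⟩ : ∃ j, n = j + 1 := ⟨n - 1, by omega⟩
  intro p
  obtain ⟨h1, h2, h3, h4⟩ := start_word j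
  have hw : word (nimParams (j + 1)).M start = word (4 * j + 1) start := by rw [nimM]
  apply sea_lose (nim_ok j p) _ (nimPos (j + 1)) start 0 (j + 1) rfl (nim_sea j p)
  · rw [hw]
    refine ⟨?_, h4⟩
    simp only [word, List.length_map, List.length_range]
    exact ⟨2 * j, by ring⟩
  · rw [hw, hv_eq, h2, h3]
    simp only [nimParams]; omega
  · rw [hw]
    right
    exact ⟨by rw [h3], h1, by rw [h2, h3]; omega⟩

end Pool.Agent.Sowing
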