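import Mathlib
import Pool.Agent.Sowing.Theory
import Pool.Agent.Sowing.Positions

set_option autoImplicit false

namespace Pool.Agent.Sowing

open Game

/-- `f` lies to the left of `g` and the gap is longer than the number of seeds of either. -/
structure Sep (a b : ℤ) (f g : Pos) : Prop where
  hf : ∀ z, a < z → f z = 0
  hg : ∀ z, z < b → g z = 0
  tf : (total f : ℤ) < b - a
  tg : (total g : ℤ) < b - a

theorem move_zero_above {p : Player} {f g : Pos} (h : Move p f g) {b : ℤ}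
    (hf : ∀ z, b < z → f z = 0) : ∀ z, b < z → g z = 0 := by
  obtain ⟨i, hi, hl, rfl⟩ := h
  intro z hz
  have hib : i ≤ b := by
    by_contra hc
    have := hf i (by omega)
    omega
  have hlb : i + p.dir * (f i : ℤ) ≤ b := by
    by_contra hc
    have := hf (i + p.dir * (f i : ℤ)) (by omega)
    omega
  rw [sow_apply, if_neg (by omega), hf z hz, if_neg]
  rintro ⟨h1, h2⟩
  cases p <;> simp only [Player.dir] at * <;> omega

theorem move_zero_below {p : Player} {f g : Pos} (h : Move p f g) {a : ℤ}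
    (hf : ∀ z, z < a → f z = 0) : ∀ z, z < a → g z = 0 := by
  obtain ⟨i, hi, hl, rfl⟩ := h
  intro z hz
  have hib : a ≤ i := by
    by_contra hc
    have := hf i (by omega)
    omega
  have hlb : a ≤ i + p.dir * (f i : ℤ) := by
    by_contra hc
    have := hf (i + p.dir * (f i : ℤ)) (by omega)
    omega
  rw [sow_apply, if_neg (by omega), hf z hz, if_neg]
  rintro ⟨h1, h2⟩
  cases p <;> simp only [Player.dir] at * <;> omega

theorem Sep.moveL {a b : ℤ} {f g f' : Pos} (h : Sep a b f g) {p : Player} (hm : Move p f f') :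
    Sep a b f' g :=
  ⟨move_zero_above hm h.hf, h.hg, by rw [total_move hm]; exact h.tf, h.tg⟩

theorem Sep.moveR {a b : ℤ} {f g g' : Pos} (h : Sep a b f g) {p : Player} (hm : Move p g g') :
    Sep a b f g' :=
  ⟨h.hf, move_zero_below hm h.hg, h.tf, by rw [total_move hm]; exact h.tg⟩

theorem sow_add_left {p : Player} {f g : Pos} {i : ℤ} (hgi : g i = 0) :
    sow p (f + g) i = sow p f i + g := by
  ext z
  rw [Finsupp.add_apply, sow_apply, sow_apply, Finsupp.add_apply, Finsupp.add_apply, hgi, add_zero]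
  by_cases hz : z = i
  · rw [if_pos hz, if_pos hz, hz, hgi]
  · rw [if_neg hz, if_neg hz]; omega

theorem move_add {a b : ℤ} {f g : Pos} (h : Sep a b f g) (p : Player) (k : Pos) :
    Move p (f + g) k ↔ (∃ f', Move p f f' ∧ k = f' + g) ∨ (∃ g', Move p g g' ∧ k = f + g') := by
  have hab : a < b := by have := h.tf; omega
  have lf : ∀ i, 0 < f i → i ≤ a := fun i hi => by
    by_contra hc; have := h.hf i (by omega); omega
  have lg : ∀ i, 0 < g i → b ≤ i := fun i hi => by
    by_contra hc; have := h.hg i (by omega); omega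
  constructor
  · rintro ⟨i, hi, hl, rfl⟩
    rw [Finsupp.add_apply] at hi hl
    by_cases hia : i ≤ a
    · have hgi : g i = 0 := h.hg i (by omega)
      have hfi := le_total f i
      have htf := h.tf
      rw [Finsupp.add_apply, hgi, add_zero] at hl
      have hgl : g (i + p.dir * (f i : ℤ)) = 0 := by
        apply h.hg
        rcases p with _ | _ <;> simp only [Player.dir] <;> omega
      left
      exact ⟨sow p f i, ⟨i, by omega, by omega, rfl⟩, sow_add_left hgi⟩
    · have hfi : f i = 0 := h.hf i (by omega)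
      have hgi := le_total g i
      have hbi := lg i (by omega)
      have htg := h.tg
      rw [Finsupp.add_apply, hfi, zero_add] at hl
      have hfl : f (i + p.dir * (g i : ℤ)) = 0 := by
        apply h.hf
        rcases p with _ | _ <;> simp only [Player.dir] <;> omega
      right
      refine ⟨sow p g i, ⟨i, by omega, by omega, rfl⟩, ?_⟩
      rw [add_comm f g, sow_add_left hfi, add_comm]
  · rintro (⟨f', ⟨i, hi, hl, rfl⟩, rfl⟩ | ⟨g', ⟨i, hi, hl, rfl⟩, rfl⟩)
    · have hgi : g i = 0 := h.hg i (by have := lf i hi; omega)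
      refine ⟨i, ?_, ?_, (sow_add_left hgi).symm⟩
      · rw [Finsupp.add_apply]; omega
      · rw [Finsupp.add_apply, Finsupp.add_apply, hgi, add_zero]; omega
    · have hfi : f i = 0 := h.hf i (by have := lg i hi; omega)
      refine ⟨i, ?_, ?_, ?_⟩
      · rw [Finsupp.add_apply]; omega
      · rw [Finsupp.add_apply, Finsupp.add_apply, hfi, zero_add]; omega
      · rw [add_comm f g, sow_add_left hfi, add_comm]

/-- Positions far apart are played independently. -/
theorem toGame_add {a b : ℤ} {f g : Pos} (h : Sep a b f g) (K : Game) (p : Player) :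
    ((toGame (f + g)).add K).wins p ↔ (((toGame f).add (toGame g)).add K).wins p := by
  apply wins_congr (fun G H => ∃ (f g : Pos) (K : Game), Sep a b f g ∧
    G = (toGame (f + g)).add K ∧ H = ((toGame f).add (toGame g)).add K) _ _ _ ⟨f, g, K, h, rfl, rfl⟩
  rintro _ _ ⟨f, g, K, h, rfl, rfl⟩ p
  constructor
  · intro G' hG'
    simp only [isOpt_add, isOpt_toGame, move_add h] at hG'
    rcases hG' with ⟨_, ⟨k, ⟨f', hf', rfl⟩ | ⟨g', hg', rfl⟩, rfl⟩, rfl⟩ | ⟨K', hK', rfl⟩
    · exact ⟨_, IsOpt.addL (IsOpt.addL ((isOpt_toGame _ _ _).2 ⟨f', hf', rfl⟩) _) _,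
        f', g, K, h.moveL hf', rfl, rfl⟩
    · exact ⟨_, IsOpt.addL (IsOpt.addR _ ((isOpt_toGame _ _ _).2 ⟨g', hg', rfl⟩)) _,
        f, g', K, h.moveR hg', rfl, rfl⟩
    · exact ⟨_, IsOpt.addR _ hK', f, g, K', h, rfl, rfl⟩
  · intro H' hH'
    simp only [isOpt_add, isOpt_toGame] at hH'
    rcases hH' with ⟨_, ⟨_, ⟨f', hf', rfl⟩, rfl⟩ | ⟨_, ⟨g', hg', rfl⟩, rfl⟩, rfl⟩ | ⟨K', hK', rfl⟩
    · exact ⟨_, IsOpt.addL ((isOpt_toGame _ _ _).2
        ⟨f' + g, (move_add h p _).2 (Or.inl ⟨f', hf', rfl⟩), rfl⟩) _, f', g, K, h.moveL hf', rfl, rfl⟩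
    · exact ⟨_, IsOpt.addL ((isOpt_toGame _ _ _).2
        ⟨f + g', (move_add h p _).2 (Or.inr ⟨g', hg', rfl⟩), rfl⟩) _, f, g', K, h.moveR hg', rfl, rfl⟩
    · exact ⟨_, IsOpt.addR _ hK', f, g, K', h, rfl, rfl⟩

theorem HasValue.add {a b : ℤ} {f g : Pos} (h : Sep a b f g) {X Y : Game} (hf : HasValue f X)
    (hg : HasValue g Y) : HasValue (f + g) (X.add Y) := by
  intro p
  rw [toGame_add h]
  exact Equal.add hf hg p

/-! ### The position `1303` -/

/-- a row given by the contents of four consecutive pots -/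
noncomputable def row4 (c : ℤ) (x₀ x₁ x₂ x₃ : ℕ) : Pos :=
  Finsupp.single c x₀ + Finsupp.single (c + 1) x₁ + Finsupp.single (c + 2) x₂ +
    Finsupp.single (c + 3) x₃

theorem row4_apply (c : ℤ) (x₀ x₁ x₂ x₃ : ℕ) (z : ℤ) : row4 c x₀ x₁ x₂ x₃ z =
    if z = c then x₀ else if z = c + 1 then x₁ else if z = c + 2 then x₂ else
      if z = c + 3 then x₃ else 0 := by
  unfold row4
  simp only [Finsupp.add_apply, Finsupp.single_apply]
  split_ifs <;> omega

theorem move_row4 {c : ℤ} {x₀ x₁ x₂ x₃ : ℕ} {p : Player} {g : Pos}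
    (h : Move p (row4 c x₀ x₁ x₂ x₃) g) : ∃ j : ℤ, (j = 0 ∨ j = 1 ∨ j = 2 ∨ j = 3) ∧
      0 < row4 c x₀ x₁ x₂ x₃ (c + j) ∧
      0 < row4 c x₀ x₁ x₂ x₃ (c + j + p.dir * (row4 c x₀ x₁ x₂ x₃ (c + j) : ℤ)) ∧
      g = sow p (row4 c x₀ x₁ x₂ x₃) (c + j) := by
  obtain ⟨i, hi, hl, rfl⟩ := h
  refine ⟨i - c, ?_, ?_, ?_, ?_⟩
  · by_contra hcon
    rw [row4_apply, if_neg (by omega), if_neg (by omega), if_neg (by omega),
      if_neg (by omega)] at hi
    omega
  · have : c + (i - c) = i := by ring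
    rw [this]; exact hi
  · have : c + (i - c) = i := by ring
    rw [this]; exact hl
  · have : c + (i - c) = i := by ring
    rw [this]

theorem sow_row4 (c : ℤ) (x₀ x₁ x₂ x₃ y₀ y₁ y₂ y₃ : ℕ) (p : Player) (i : ℤ)
    (h : ∀ z, sow p (row4 c x₀ x₁ x₂ x₃) i z = row4 c y₀ y₁ y₂ y₃ z) :
    sow p (row4 c x₀ x₁ x₂ x₃) i = row4 c y₀ y₁ y₂ y₃ := Finsupp.ext h

/-- the contents of `row4` in relative coordinates -/
def r4 (x₀ x₁ x₂ x₃ : ℕ) (j : ℤ) : ℕ :=
  if j = 0 then x₀ else if j = 1 then x₁ else if j = 2 then x₂ else if j = 3 then x₃ else 0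

theorem row4_rel (c : ℤ) (x₀ x₁ x₂ x₃ : ℕ) (j : ℤ) :
    row4 c x₀ x₁ x₂ x₃ (c + j) = r4 x₀ x₁ x₂ x₃ j := by
  rw [row4_apply, r4]
  split_ifs <;> first | rfl | omega

theorem move_r4 {c : ℤ} {x₀ x₁ x₂ x₃ : ℕ} {p : Player} {g : Pos}
    (h : Move p (row4 c x₀ x₁ x₂ x₃) g) : ∃ j : ℤ, (j = 0 ∨ j = 1 ∨ j = 2 ∨ j = 3) ∧
      0 < r4 x₀ x₁ x₂ x₃ j ∧
      0 < r4 x₀ x₁ x₂ x₃ (j + p.dir * (r4 x₀ x₁ x₂ x₃ j : ℤ)) ∧
      g = sow p (row4 c x₀ x₁ x₂ x₃) (c + j) := by
  obtain ⟨j, h1, h2, h3, h4⟩ := move_row4 h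
  rw [row4_rel] at h2 h3
  rw [add_assoc, row4_rel] at h3
  exact ⟨j, h1, h2, h3, h4⟩

theorem move_r4' {c : ℤ} {x₀ x₁ x₂ x₃ : ℕ} (p : Player) (j : ℤ)
    (h1 : 0 < r4 x₀ x₁ x₂ x₃ j)
    (h2 : 0 < r4 x₀ x₁ x₂ x₃ (j + p.dir * (r4 x₀ x₁ x₂ x₃ j : ℤ))) :
    Move p (row4 c x₀ x₁ x₂ x₃) (sow p (row4 c x₀ x₁ x₂ x₃) (c + j)) := by
  refine ⟨c + j, ?_, ?_, rfl⟩
  · rw [row4_rel]; exact h1
  · rw [row4_rel, add_assoc, row4_rel]; exact h2

theorem sow_r4 (c : ℤ) (x₀ x₁ x₂ x₃ y₀ y₁ y₂ y₃ : ℕ) (p : Player) (j : ℤ)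
    (h : ∀ z : ℤ, (if z = j then 0 else r4 x₀ x₁ x₂ x₃ z + (if 1 ≤ p.dir * (z - j) ∧
      p.dir * (z - j) ≤ (r4 x₀ x₁ x₂ x₃ j : ℤ) then 1 else 0)) = r4 y₀ y₁ y₂ y₃ z) :
    sow p (row4 c x₀ x₁ x₂ x₃) (c + j) = row4 c y₀ y₁ y₂ y₃ := by
  ext z
  obtain ⟨w, rfl⟩ : ∃ w, z = c + w := ⟨z - c, by ring⟩
  rw [sow_apply, row4_rel, row4_rel, row4_rel, ← h w]
  have e2 : c + w - (c + j) = w - j := by ring
  rw [e2]
  by_cases hh : w = j
  · rw [if_pos hh, if_pos (by omega)]
  · rw [if_neg hh, if_neg (by omega)]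

theorem upBlock_eq (c : ℤ) : upBlock c = row4 c 1 3 0 3 := by
  unfold upBlock row4; simp

theorem dead_403 (c : ℤ) (p : Player) (g : Pos) : ¬ Move p (row4 c 0 4 0 3) g := by
  intro h
  obtain ⟨j, hj, h1, h2, -⟩ := move_r4 h
  rcases hj with rfl | rfl | rfl | rfl <;> cases p <;> simp [r4, Player.dir] at h1 h2

theorem dead_52 (c : ℤ) (p : Player) (g : Pos) : ¬ Move p (row4 c 0 5 2 0) g := by
  intro h
  obtain ⟨j, hj, h1, h2, -⟩ := move_r4 h
  rcases hj with rfl | rfl | rfl | rfl <;> cases p <;> simp [r4, Player.dir] at h1 h2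

theorem dead_25 (c : ℤ) (p : Player) (g : Pos) : ¬ Move p (row4 c 2 5 0 0) g := by
  intro h
  obtain ⟨j, hj, h1, h2, -⟩ := move_r4 h
  rcases hj with rfl | rfl | rfl | rfl <;> cases p <;> simp [r4, Player.dir] at h1 h2

theorem sow_1303_left (c : ℤ) : sow .left (row4 c 1 3 0 3) (c + 0) = row4 c 0 4 0 3 := by
  apply sow_r4
  intro z
  simp only [r4, Player.dir]
  split_ifs <;> simp_all <;> omega

theorem sow_1303_right (c : ℤ) : sow .right (row4 c 1 3 0 3) (c + 3) = row4 c 2 4 1 0 := by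
  apply sow_r4
  intro z
  simp only [r4, Player.dir]
  split_ifs <;> simp_all <;> omega

theorem sow_2410_left (c : ℤ) : sow .left (row4 c 2 4 1 0) (c + 0) = row4 c 0 5 2 0 := by
  apply sow_r4
  intro z
  simp only [r4, Player.dir]
  split_ifs <;> simp_all <;> omega

theorem sow_2410_right (c : ℤ) : sow .right (row4 c 2 4 1 0) (c + 2) = row4 c 2 5 0 0 := by
  apply sow_r4
  intro z
  simp only [r4, Player.dir]
  split_ifs <;> simp_all <;> omega

theorem move_1303_left (c : ℤ) (g : Pos) :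
    Move .left (row4 c 1 3 0 3) g ↔ g = row4 c 0 4 0 3 := by
  constructor
  · intro h
    obtain ⟨j, hj, h1, h2, rfl⟩ := move_r4 h
    rcases hj with rfl | rfl | rfl | rfl
    · exact sow_1303_left c
    all_goals simp [r4, Player.dir] at h1 h2
  · rintro rfl
    rw [← sow_1303_left c]
    apply move_r4' <;> simp [r4, Player.dir]

theorem move_1303_right (c : ℤ) (g : Pos) :
    Move .right (row4 c 1 3 0 3) g ↔ g = row4 c 2 4 1 0 := by
  constructor
  · intro h
    obtain ⟨j, hj, h1, h2, rfl⟩ := move_r4 h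
    rcases hj with rfl | rfl | rfl | rfl
    · simp [r4, Player.dir] at h1 h2
    · simp [r4, Player.dir] at h1 h2
    · simp [r4, Player.dir] at h1 h2
    · exact sow_1303_right c
  · rintro rfl
    rw [← sow_1303_right c]
    apply move_r4' <;> simp [r4, Player.dir]

theorem move_2410_left (c : ℤ) (g : Pos) :
    Move .left (row4 c 2 4 1 0) g ↔ g = row4 c 0 5 2 0 := by
  constructor
  · intro h
    obtain ⟨j, hj, h1, h2, rfl⟩ := move_r4 h
    rcases hj with rfl | rfl | rfl | rfl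
    · exact sow_2410_left c
    all_goals simp [r4, Player.dir] at h1 h2
  · rintro rfl
    rw [← sow_2410_left c]
    apply move_r4' <;> simp [r4, Player.dir]

theorem move_2410_right (c : ℤ) (g : Pos) :
    Move .right (row4 c 2 4 1 0) g ↔ g = row4 c 2 5 0 0 := by
  constructor
  · intro h
    obtain ⟨j, hj, h1, h2, rfl⟩ := move_r4 h
    rcases hj with rfl | rfl | rfl | rfl
    · simp [r4, Player.dir] at h1 h2
    · simp [r4, Player.dir] at h1 h2
    · exact sow_2410_right c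
    · simp [r4, Player.dir] at h1 h2
  · rintro rfl
    rw [← sow_2410_right c]
    apply move_r4' <;> simp [r4, Player.dir]

theorem no_opt_of_dead {f : Pos} (h : ∀ p g, ¬ Move p f g) (p : Player) (K : Game) :
    ¬ IsOpt p (toGame f) K := by
  rw [isOpt_toGame]
  rintro ⟨g, hg, -⟩
  exact h p g hg

theorem no_opt_nimber_zero (p : Player) (K : Game) : ¬ IsOpt p (nimber 0) K := by
  rw [isOpt_nimber]
  rintro ⟨k, hk, -⟩
  omega

theorem star_value (c : ℤ) : HasValue (row4 c 2 4 1 0) (nimber 1) := by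
  apply equal_of_opts
  intro p
  constructor
  · intro G' hG'
    rw [isOpt_toGame] at hG'
    obtain ⟨g, hg, rfl⟩ := hG'
    refine ⟨nimber 0, (isOpt_nimber _ _ _).2 ⟨0, by omega, rfl⟩, ?_⟩
    cases p with
    | left =>
      rw [move_2410_left] at hg
      subst hg
      exact equal_of_no_opt (no_opt_of_dead (dead_52 c)) no_opt_nimber_zero
    | right =>
      rw [move_2410_right] at hg
      subst hg
      exact equal_of_no_opt (no_opt_of_dead (dead_25 c)) no_opt_nimber_zero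
  · intro H' hH'
    rw [isOpt_nimber] at hH'
    obtain ⟨k, hk, rfl⟩ := hH'
    have hk0 : k = 0 := by omega
    subst hk0
    cases p with
    | left =>
      exact ⟨_, (isOpt_toGame _ _ _).2 ⟨_, (move_2410_left c _).2 rfl, rfl⟩,
        equal_of_no_opt (no_opt_of_dead (dead_52 c)) no_opt_nimber_zero⟩
    | right =>
      exact ⟨_, (isOpt_toGame _ _ _).2 ⟨_, (move_2410_right c _).2 rfl, rfl⟩,
        equal_of_no_opt (no_opt_of_dead (dead_25 c)) no_opt_nimber_zero⟩

theorem upBlock_value (c : ℤ) : HasValue (upBlock c) up := by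
  rw [upBlock_eq]
  apply equal_of_opts
  intro p
  cases p with
  | left =>
    have he : (toGame (row4 c 0 4 0 3)).Equal zero :=
      equal_of_no_opt (no_opt_of_dead (dead_403 c)) isOpt_zero
    constructor
    · intro G' hG'
      rw [isOpt_toGame] at hG'
      obtain ⟨g, hg, rfl⟩ := hG'
      rw [move_1303_left] at hg
      subst hg
      exact ⟨zero, (isOpt_cut_left _ _ _).2 rfl, he⟩
    · intro H' hH'
      rw [up, isOpt_cut_left] at hH'
      subst hH'
      exact ⟨_, (isOpt_toGame _ _ _).2 ⟨_, (move_1303_left c _).2 rfl, rfl⟩, he⟩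
  | right =>
    constructor
    · intro G' hG'
      rw [isOpt_toGame] at hG'
      obtain ⟨g, hg, rfl⟩ := hG'
      rw [move_1303_right] at hg
      subst hg
      exact ⟨nimber 1, (isOpt_cut_right _ _ _).2 rfl, star_value c⟩
    · intro H' hH'
      rw [up, isOpt_cut_right] at hH'
      subst hH'
      exact ⟨_, (isOpt_toGame _ _ _).2 ⟨_, (move_1303_right c _).2 rfl, rfl⟩, star_value c⟩

theorem total_upBlock (c : ℤ) : total (upBlock c) = 7 := by
  unfold total upBlock
  rw [Finsupp.sum_add_index' (by simp) (by intros; rfl),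
    Finsupp.sum_add_index' (by simp) (by intros; rfl)]
  simp

theorem total_upPos (n : ℕ) : total (upPos n) = 7 * n := by
  induction n with
  | zero => simp [upPos, total]
  | succ n ih =>
    have h : total (upPos (n + 1)) = total (upPos n) + total (upBlock (12 * ((n : ℤ) + 1) ^ 2)) := by
      rw [upPos]
      unfold total
      rw [Finsupp.sum_add_index' (by simp) (by intros; rfl)]
    rw [h, ih, total_upBlock]
    ring

theorem upBlock_apply_zero (c z : ℤ) (h : z < c ∨ c + 3 < z) : upBlock c z = 0 := by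
  unfold upBlock
  simp only [Finsupp.add_apply, Finsupp.single_apply]
  split_ifs <;> omega

theorem upPos_above (n : ℕ) : ∀ z : ℤ, 12 * (n : ℤ) ^ 2 + 3 < z → upPos n z = 0 := by
  induction n with
  | zero => intro z _; simp [upPos]
  | succ n ih =>
    intro z hz
    have hn : (0 : ℤ) ≤ n := Int.natCast_nonneg n
    rw [upPos, Finsupp.add_apply, ih z, upBlock_apply_zero]
    · right; push_cast at hz; exact hz
    · push_cast at hz; nlinarith

theorem upPos_sep (n : ℕ) : Sep (12 * (n : ℤ) ^ 2 + 3) (12 * ((n : ℤ) + 1) ^ 2)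
    (upPos n) (upBlock (12 * ((n : ℤ) + 1) ^ 2)) where
  hf := upPos_above n
  hg := fun z hz => upBlock_apply_zero _ _ (Or.inl hz)
  tf := by
    have hn : (0 : ℤ) ≤ n := Int.natCast_nonneg n
    rw [total_upPos]; push_cast; nlinarith
  tg := by
    have hn : (0 : ℤ) ≤ n := Int.natCast_nonneg n
    rw [total_upBlock]; push_cast; nlinarith

theorem dead_zero (p : Player) (g : Pos) : ¬ Move p 0 g := by
  rintro ⟨i, hi, -⟩
  simp at hi

/-- The position `upPos n` has the value `n·↑`. -/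
theorem upPos_value (n : ℕ) : HasValue (upPos n) (nUp n) := by
  induction n with
  | zero => exact equal_of_no_opt (no_opt_of_dead dead_zero) isOpt_zero
  | succ n ih => exact HasValue.add (upPos_sep n) ih (upBlock_value _)

end Pool.Agent.Sowing
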