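import Mathlib
import Pool.Agent.Sowing.UpThm

set_option autoImplicit false

namespace Pool.Agent.Sowing

open Game

theorem sow_right_apply (f : Pos) (i z : ℤ) : sow .right f i z = if z = i then 0 else
    if i - (f i : ℤ) ≤ z ∧ z < i then f z + 1 else f z := by
  rw [sow_apply, show Player.right.dir = -1 from rfl]
  split_ifs <;> omega

theorem sow_left_apply (f : Pos) (i z : ℤ) : sow .left f i z = if z = i then 0 else
    if i < z ∧ z ≤ i + (f i : ℤ) then f z + 1 else f z := by
  rw [sow_apply, show Player.left.dir = 1 from rfl]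
  split_ifs <;> omega

/-- Right's chain of positions after the threat: `dFun n r` has value `-(r+1)`. -/
def dFun (n r : ℕ) (z : ℤ) : ℕ :=
  if z = 0 then (if r = 0 then 3 * n + 11 else 3 * n + 10)
  else if z = 2 * n + 1 ∨ z = 2 * n + 2 then 3 * n + 11
  else if 1 ≤ z ∧ z < 2 * r ∧ 2 ∣ z then 1
  else if z = 2 * r then 2
  else if 2 * r < z ∧ z ≤ 2 * n ∧ ¬ 2 ∣ z then 1
  else 0

theorem dFun_left {n r : ℕ} (hr : r < n) {f : Pos} (hf : ∀ z, f z = dFun n r z) (g : Pos) :
    ¬ Move .left f g := by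
  rintro ⟨i, hi, hl, -⟩
  rw [hf] at hi
  rw [hf, hf] at hl
  simp only [Player.dir] at hl
  unfold dFun at hi hl
  split_ifs at hi hl <;> omega

/-- The only pots Right can sow are `2r` and `2r+1`. -/
theorem dFun_right_cases {n r : ℕ} (hr : r < n) {i : ℤ} (hi : 0 < dFun n r i)
    (hl : 0 < dFun n r (i - (dFun n r i : ℤ))) : (i = 2 * r ∧ 0 < r) ∨ i = 2 * r + 1 := by
  unfold dFun at hi hl
  split_ifs at hi hl <;> omega

/-- The position after pot `2r+1` has been sown onto pot `2r`, `r ≥ 1`. -/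
def eFun (n r : ℕ) (z : ℤ) : ℕ :=
  if z = 0 then (if r = 0 then 3 * n + 12 else 3 * n + 10)
  else if z = 2 * n + 1 ∨ z = 2 * n + 2 then 3 * n + 11
  else if 1 ≤ z ∧ z < 2 * r ∧ 2 ∣ z then 1
  else if z = 2 * r then 3
  else if 2 * r + 1 < z ∧ z ≤ 2 * n ∧ ¬ 2 ∣ z then 1
  else 0

theorem sow_dFun_odd {n r : ℕ} (hr : r < n) {f : Pos} (hf : ∀ z, f z = dFun n r z) (z : ℤ) :
    sow .right f (2 * r + 1) z = eFun n r z := by
  have h1 : f (2 * r + 1) = 1 := by
    rw [hf]; unfold dFun
    rw [if_neg (by omega), if_neg (by omega), if_neg (by omega), if_neg (by omega),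
      if_pos (by omega)]
  rw [sow_right_apply, h1, hf]
  unfold dFun eFun
  split_ifs <;> omega

theorem sow_dFun_even {n r : ℕ} (hr : r + 1 < n) {f : Pos} (hf : ∀ z, f z = dFun n (r + 1) z)
    (z : ℤ) : sow .right f (2 * (r + 1 : ℕ)) z = dFun n r z := by
  have h1 : f (2 * (r + 1 : ℕ)) = 2 := by
    rw [hf]; unfold dFun
    rw [if_neg (by omega), if_neg (by omega), if_neg (by omega), if_pos (by omega)]
  rw [sow_right_apply, h1, hf]
  unfold dFun
  split_ifs <;> first | omega | contradiction

theorem eFun_right {n r : ℕ} (hr : r < n) {f : Pos} (hf : ∀ z, f z = eFun n r z) (g : Pos) :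
    ¬ Move .right f g := by
  rintro ⟨i, hi, hl, -⟩
  rw [hf] at hi
  rw [hf, hf] at hl
  simp only [Player.dir] at hl
  unfold eFun at hi hl
  split_ifs at hi hl <;> omega

theorem eFun_zero_left {n : ℕ} {f : Pos} (hf : ∀ z, f z = eFun n 0 z) (g : Pos) :
    ¬ Move .left f g := by
  rintro ⟨i, hi, hl, -⟩
  rw [hf] at hi
  rw [hf, hf] at hl
  simp only [Player.dir] at hl
  unfold eFun at hi hl
  split_ifs at hi hl <;> omega

theorem no_opt_nat_zero_neg (p : Player) (K : Game) : ¬ IsOpt p (nat 0).neg K := by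
  rw [isOpt_neg]
  rintro ⟨G, hG, -⟩
  exact isOpt_zero _ _ hG

theorem dFun_value {n : ℕ} (r : ℕ) : r < n → ∀ f : Pos, (∀ z, f z = dFun n r z) →
    (toGame f).Equal (nat (r + 1)).neg := by
  induction r with
  | zero =>
    intro hr f hf
    have hs : ∀ z, sow .right f 1 z = eFun n 0 z := fun z => by
      have := sow_dFun_odd hr hf z
      simpa using this
    have hdead : (toGame (sow .right f 1)).Equal (nat 0).neg := by
      apply equal_of_no_opt
      · apply no_opt_of_dead
        intro p g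
        cases p with
        | left => exact eFun_zero_left hs g
        | right => exact eFun_right hr hs g
      · exact no_opt_nat_zero_neg
    have hm : Move .right f (sow .right f 1) := by
      have h1 : f 1 = 1 := by
        rw [hf]; unfold dFun
        rw [if_neg (by omega), if_neg (by omega), if_neg (by omega), if_neg (by omega),
          if_pos (by omega)]
      refine ⟨1, by omega, ?_, rfl⟩
      rw [h1]
      simp only [Player.dir]
      rw [hf]
      simp [dFun]
    apply equal_neg_nat_succ (D := toGame (sow .right f 1))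
    · intro K hK
      rw [isOpt_toGame] at hK
      obtain ⟨g, hg, rfl⟩ := hK
      exact dFun_left hr hf g hg
    · exact (isOpt_toGame _ _ _).2 ⟨_, hm, rfl⟩
    · exact hdead
    · intro K hK
      rw [isOpt_toGame] at hK
      obtain ⟨g, ⟨i, hi, hl, rfl⟩, rfl⟩ := hK
      left
      rw [hf] at hi
      rw [hf, hf] at hl
      simp only [Player.dir] at hl
      have e : i + -1 * (dFun n 0 i : ℤ) = i - dFun n 0 i := by ring
      rw [e] at hl
      rcases dFun_right_cases hr hi hl with ⟨h1, h2⟩ | h1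
      · omega
      · have : i = 1 := by simpa using h1
        subst this
        exact hdead
  | succ r ih =>
    intro hr f hf
    have h1 : f (2 * (r + 1 : ℕ)) = 2 := by
      rw [hf]; unfold dFun
      rw [if_neg (by omega), if_neg (by omega), if_neg (by omega), if_pos (by omega)]
    have hm : Move .right f (sow .right f (2 * (r + 1 : ℕ))) := by
      refine ⟨2 * (r + 1 : ℕ), by omega, ?_, rfl⟩
      rw [h1]
      simp only [Player.dir]
      rw [hf]
      unfold dFun
      split_ifs <;> omega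
    have he := ih (by omega) _ (sow_dFun_even hr hf)
    apply equal_neg_nat_succ (D := toGame (sow .right f (2 * (r + 1 : ℕ))))
    · intro K hK
      rw [isOpt_toGame] at hK
      obtain ⟨g, hg, rfl⟩ := hK
      exact dFun_left hr hf g hg
    · exact (isOpt_toGame _ _ _).2 ⟨_, hm, rfl⟩
    · exact he
    · intro K hK
      rw [isOpt_toGame] at hK
      obtain ⟨g, ⟨i, hi, hl, rfl⟩, rfl⟩ := hK
      rw [hf] at hi
      rw [hf, hf] at hl
      simp only [Player.dir] at hl
      have e : i + -1 * (dFun n (r + 1) i : ℤ) = i - dFun n (r + 1) i := by ring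
      rw [e] at hl
      rcases dFun_right_cases hr hi hl with ⟨h1, h2⟩ | h1
      · left
        rw [h1]
        exact he
      · right
        intro K' hK'
        rw [isOpt_toGame] at hK'
        obtain ⟨g', hg', rfl⟩ := hK'
        rw [h1] at hg'
        exact eFun_right hr (sow_dFun_odd hr hf) g' hg'

/-- the position after Right's threat -/
def rFun (n : ℕ) (z : ℤ) : ℕ :=
  if z = 0 then 3 * n + 10
  else if z = 2 * n + 1 ∨ z = 2 * n + 2 then 3 * n + 11
  else if z = 2 * n then 2
  else if 1 ≤ z ∧ z < 2 * n ∧ 2 ∣ z then 1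
  else 0

/-- the position after Left's move from the start -/
def aFun (n : ℕ) (z : ℤ) : ℕ :=
  if z = 0 ∨ z = 2 * n + 2 then 3 * n + 10
  else if z = 2 * n + 1 then 3 * n + 11
  else if z = 2 * n + 3 then 3
  else if 1 ≤ z ∧ z < 2 * n ∧ 2 ∣ z then 1
  else 0

/-- the position after Left's answer to Right's threat -/
def bFun (n : ℕ) (z : ℤ) : ℕ :=
  if z = 0 then 3 * n + 10
  else if z = 2 * n + 1 ∨ z = 2 * n + 2 then 3 * n + 12
  else if 1 ≤ z ∧ z < 2 * n ∧ 2 ∣ z then 1
  else 0

theorem aFun_dead {n : ℕ} (hn : 1 ≤ n) {f : Pos} (hf : ∀ z, f z = aFun n z) (p : Player) (g : Pos) :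
    ¬ Move p f g := by
  rintro ⟨i, hi, hl, -⟩
  rw [hf] at hi
  rw [hf, hf] at hl
  cases p <;> simp only [Player.dir] at hl <;> unfold aFun at hi hl <;> split_ifs at hi hl <;> omega

theorem bFun_dead {n : ℕ} {f : Pos} (hf : ∀ z, f z = bFun n z) (p : Player) (g : Pos) :
    ¬ Move p f g := by
  rintro ⟨i, hi, hl, -⟩
  rw [hf] at hi
  rw [hf, hf] at hl
  cases p <;> simp only [Player.dir] at hl <;> unfold bFun at hi hl <;> split_ifs at hi hl <;> omega

theorem tinyFun_left_cases {n : ℕ} (hn : 1 ≤ n) {i : ℤ} (hi : 0 < tinyFun n i)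
    (hl : 0 < tinyFun n (i + (tinyFun n i : ℤ))) : i = 2 * n := by
  unfold tinyFun at hi hl
  split_ifs at hi hl <;> omega

theorem tinyFun_right_cases {n : ℕ} (hn : 1 ≤ n) {i : ℤ} (hi : 0 < tinyFun n i)
    (hl : 0 < tinyFun n (i - (tinyFun n i : ℤ))) : i = 2 * n + 3 := by
  unfold tinyFun at hi hl
  split_ifs at hi hl <;> omega

theorem rFun_left_cases {n : ℕ} (hn : 1 ≤ n) {i : ℤ} (hi : 0 < rFun n i)
    (hl : 0 < rFun n (i + (rFun n i : ℤ))) : i = 2 * n := by
  unfold rFun at hi hl
  split_ifs at hi hl <;> omega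

theorem rFun_right_cases {n : ℕ} (hn : 1 ≤ n) {i : ℤ} (hi : 0 < rFun n i)
    (hl : 0 < rFun n (i - (rFun n i : ℤ))) : i = 2 * n := by
  unfold rFun at hi hl
  split_ifs at hi hl <;> omega

/-- Left moves exactly to positions `sow .left f i` with `i` in a given one-element set. -/
theorem opt_left_iff {f : Pos} {F : ℤ → ℕ} (hf : ∀ z, f z = F z) {i₀ : ℤ} (h0 : 0 < F i₀)
    (h1 : 0 < F (i₀ + (F i₀ : ℤ))) (h2 : ∀ i, 0 < F i → 0 < F (i + (F i : ℤ)) → i = i₀)
    (K : Game) : IsOpt .left (toGame f) K ↔ K = toGame (sow .left f i₀) := by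
  rw [isOpt_toGame]
  constructor
  · rintro ⟨g, ⟨i, hi, hl, rfl⟩, rfl⟩
    rw [hf] at hi
    rw [hf, hf] at hl
    rw [h2 i hi (by simpa [Player.dir] using hl)]
  · rintro rfl
    refine ⟨_, ⟨i₀, ?_, ?_, rfl⟩, rfl⟩
    · rw [hf]; exact h0
    · rw [hf, hf]; simpa [Player.dir] using h1

theorem opt_right_iff {f : Pos} {F : ℤ → ℕ} (hf : ∀ z, f z = F z) {i₀ : ℤ} (h0 : 0 < F i₀)
    (h1 : 0 < F (i₀ - (F i₀ : ℤ))) (h2 : ∀ i, 0 < F i → 0 < F (i - (F i : ℤ)) → i = i₀)
    (K : Game) : IsOpt .right (toGame f) K ↔ K = toGame (sow .right f i₀) := by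
  rw [isOpt_toGame]
  constructor
  · rintro ⟨g, ⟨i, hi, hl, rfl⟩, rfl⟩
    rw [hf] at hi
    rw [hf, hf] at hl
    rw [h2 i hi (by simpa [Player.dir, sub_eq_add_neg] using hl)]
  · rintro rfl
    refine ⟨_, ⟨i₀, ?_, ?_, rfl⟩, rfl⟩
    · rw [hf]; exact h0
    · rw [hf, hf]; simpa [Player.dir, sub_eq_add_neg] using h1

/-- If both players have a single option, the value is given by those of the options. -/
theorem equal_cut {f l r : Pos} {L R : Game} (hl : ∀ K, IsOpt .left (toGame f) K ↔ K = toGame l)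
    (hr : ∀ K, IsOpt .right (toGame f) K ↔ K = toGame r) (h1 : (toGame l).Equal L)
    (h2 : (toGame r).Equal R) : (toGame f).Equal (cut L R) := by
  apply equal_of_opts
  intro p
  cases p with
  | left =>
    constructor
    · intro K hK
      rw [hl] at hK
      subst hK
      exact ⟨L, (isOpt_cut_left _ _ _).2 rfl, h1⟩
    · intro K hK
      rw [isOpt_cut_left] at hK
      subst hK
      exact ⟨_, (hl _).2 rfl, h1⟩
  | right =>
    constructor
    · intro K hK
      rw [hr] at hK
      subst hK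
      exact ⟨R, (isOpt_cut_right _ _ _).2 rfl, h2⟩
    · intro K hK
      rw [isOpt_cut_right] at hK
      subst hK
      exact ⟨_, (hr _).2 rfl, h2⟩

theorem rFun_value {n : ℕ} (hn : 1 ≤ n) {f : Pos} (hf : ∀ z, f z = rFun n z) :
    (toGame f).Equal (cut zero (nat n).neg) := by
  obtain ⟨m, rfl⟩ : ∃ m, n = m + 1 := ⟨n - 1, by omega⟩
  have e : rFun (m + 1) (2 * (m + 1 : ℕ)) = 2 := by
    unfold rFun
    rw [if_neg (by omega), if_neg (by omega), if_pos (by omega)]
  have e1 : f (2 * (m + 1 : ℕ)) = 2 := by rw [hf, e]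
  apply equal_cut (l := sow .left f (2 * (m + 1 : ℕ))) (r := sow .right f (2 * (m + 1 : ℕ)))
  · apply opt_left_iff hf (by omega)
    · rw [e]; unfold rFun; split_ifs <;> omega
    · exact fun i => rFun_left_cases hn
  · apply opt_right_iff hf (by omega)
    · rw [e]; unfold rFun; split_ifs <;> omega
    · exact fun i => rFun_right_cases hn
  · apply equal_of_no_opt _ isOpt_zero
    apply no_opt_of_dead
    apply bFun_dead (n := m + 1)
    intro z
    rw [sow_left_apply, e1, hf]
    unfold rFun bFun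
    split_ifs <;> omega
  · apply dFun_value (n := m + 1) m (by omega)
    intro z
    rw [sow_right_apply, e1, hf]
    unfold rFun dFun
    split_ifs <;> omega

/-- The position `tinyPos n` has value tiny-`n`, for `n ≥ 1`. -/
theorem tinyPos_value {n : ℕ} (hn : 1 ≤ n) : HasValue (tinyPos n) (tiny n) := by
  have hf : ∀ z, tinyPos n z = tinyFun n z := fun z => rfl
  have e0 : tinyFun n (2 * n) = 1 := by
    unfold tinyFun
    rw [if_neg (by omega), if_neg (by omega), if_pos (by omega)]
  have e3 : tinyFun n (2 * n + 3) = 3 := by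
    unfold tinyFun
    rw [if_neg (by omega), if_pos (by omega)]
  have f0 : tinyPos n (2 * n) = 1 := by rw [hf, e0]
  have f3 : tinyPos n (2 * n + 3) = 3 := by rw [hf, e3]
  apply equal_cut (l := sow .left (tinyPos n) (2 * n)) (r := sow .right (tinyPos n) (2 * n + 3))
  · apply opt_left_iff hf (by omega)
    · rw [e0]; unfold tinyFun; split_ifs <;> omega
    · exact fun i => tinyFun_left_cases hn
  · apply opt_right_iff hf (by omega)
    · rw [e3]; unfold tinyFun; split_ifs <;> omega
    · exact fun i => tinyFun_right_cases hn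
  · apply equal_of_no_opt _ isOpt_zero
    apply no_opt_of_dead
    apply aFun_dead hn
    intro z
    rw [sow_left_apply, f0, hf]
    unfold tinyFun aFun
    split_ifs <;> omega
  · apply rFun_value hn
    intro z
    rw [sow_right_apply, f3, hf]
    unfold tinyFun rFun
    split_ifs <;> omega

end Pool.Agent.Sowing
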